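import Pool.Agent.H4.UZ.Zr
import Pool.Graph.R_seed8.Y834.UT.Main
import Pool.Graph.R_seed8.H297R2.BakerThm
import Pool.Graph.R_pool_sql_team_seeded_3997aac3.Q97.UM.Rh

set_option autoImplicit false

/-! Final lemmas on joint approximation events. -/

open Complex Filter Topology Set MeasureTheory

namespace Pool.Agent.H4.UZ

open H370 TH803TW TH803UC H295SI
open Pool.Agent.X107.UZ (kN aN pN pN_prime pN_inj Ev)

variable {r : ℕ}

/-- the dilations `h_j` are such that the numbers `h_j log p` are linearly independent over the rationals -/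
def Indep (h : Fin r → ℝ) : Prop := LinearIndependent ℚ (fun x : Fin r × Nat.Primes => h x.1 * Real.log (x.2 : ℕ))

lemma Indep.hind {h : Fin r → ℝ} (hi : Indep h) (N : ℕ) (n : Fin r → Fin (kN N) → ℤ)
    (hs : ∑ j, ∑ l, (n j l : ℝ) * (h j * aN N l) = 0) : n = 0 := by
  classical
  have hinj : Function.Injective (fun x : Fin r × Fin (kN N) => ((x.1, ⟨pN N x.2, pN_prime N x.2⟩) : Fin r × Nat.Primes)) := by
    rintro ⟨a, b⟩ ⟨c, d⟩ hx
    have h1 : a = c := congrArg Prod.fst hx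
    have h2 : pN N b = pN N d := congrArg (fun x : Fin r × Nat.Primes => (x.2 : ℕ)) hx
    rw [h1, pN_inj N h2]
  have h1 := Fintype.linearIndependent_iff.1 (hi.comp _ hinj) (fun x => (n x.1 x.2 : ℚ)) (by
    have h2 : ∑ x : Fin r × Fin (kN N), ((n x.1 x.2 : ℤ) : ℝ) * (h x.1 * Real.log (pN N x.2)) = 0 := by
      rw [Fintype.sum_prod_type]
      have h3 : ∑ j, ∑ l, (n j l : ℝ) * (h j * aN N l) = (∑ j, ∑ l, (n j l : ℝ) * (h j * Real.log (pN N l))) / (2 * Real.pi) := by
        rw [Finset.sum_div]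
        refine Finset.sum_congr rfl fun j _ => ?_
        rw [Finset.sum_div]
        refine Finset.sum_congr rfl fun l _ => ?_
        unfold aN
        ring
      rw [h3, div_eq_zero_iff] at hs
      rcases hs with hs | hs
      · exact hs
      · exact absurd hs (by positivity)
    rw [← h2]
    refine Finset.sum_congr rfl fun x _ => ?_
    rw [Rat.smul_def]
    simp)
  funext j l
  have h2 := h1 (j, l)
  simpa using h2

lemma indep_primes : LinearIndependent ℚ (fun p : Nat.Primes => Real.log (p : ℕ)) := by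
  classical
  rw [linearIndependent_iff']
  intro s g hg
  have h1 : ∀ p ∈ s, ∃ z : ℤ, (z : ℚ) = g p * ∏ q ∈ s, (g q).den := by
    intro p hp
    refine ⟨(g p).num * ∏ q ∈ s.erase p, ((g q).den : ℤ), ?_⟩
    rw [← Finset.mul_prod_erase s _ hp]
    push_cast
    have h2 : (g p) * (g p).den = (g p).num := Rat.mul_den_eq_num _
    rw [← h2]
    ring
  choose! z hz using h1
  have hD : (0 : ℚ) < ∏ q ∈ s, ((g q).den : ℚ) := Finset.prod_pos fun q _ => by exact_mod_cast (g q).den_pos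
  have h2 : ∑ i : Fin s.card, (z ((s.equivFin.symm i : s) : Nat.Primes) : ℝ) * Real.log (((s.equivFin.symm i : s) : Nat.Primes) : ℕ) = 0 := by
    have h3 : ∑ p ∈ s, (z p : ℝ) * Real.log (p : ℕ) = 0 := by
      have h4 : ∑ p ∈ s, (z p : ℝ) * Real.log (p : ℕ) = (∏ q ∈ s, ((g q).den : ℝ)) * ∑ p ∈ s, g p • Real.log (p : ℕ) := by
        rw [Finset.mul_sum]
        refine Finset.sum_congr rfl fun p hp => ?_
        rw [Rat.smul_def]
        have h5 : ((z p : ℚ) : ℝ) = ((g p * ∏ q ∈ s, ((g q).den : ℚ) : ℚ) : ℝ) := by rw [hz p hp]; push_cast; ring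
        push_cast at h5
        rw [h5]
        ring
      rw [h4, hg, mul_zero]
    rw [← h3, ← Finset.sum_coe_sort s]
    exact Equiv.sum_comp s.equivFin.symm (fun p : s => (z p : ℝ) * Real.log ((p : Nat.Primes) : ℕ))
  have h3 := Pool.Agent.X107.UZ.log_indep (fun i : Fin s.card => ((s.equivFin.symm i : s) : Nat.Primes).1)
    (fun i => ((s.equivFin.symm i : s) : Nat.Primes).2) (fun i j hij => s.equivFin.symm.injective (Subtype.ext (Subtype.ext hij)))
    (fun i => z (s.equivFin.symm i : s)) h2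
  intro p hp
  have h4 := h3 (s.equivFin ⟨p, hp⟩)
  rw [Equiv.symm_apply_apply] at h4
  have h5 := hz p hp
  change z p = 0 at h4
  rw [h4] at h5
  push_cast at h5
  rcases mul_eq_zero.1 h5.symm with h6 | h6
  · exact h6
  · exact absurd h6 hD.ne'

/-- one dilation -/
lemma indep_one (h : Fin 1 → ℝ) (h0 : h 0 ≠ 0) : Indep h := by
  unfold Indep
  rw [linearIndependent_iff']
  intro s g hg
  have h1 : ∑ x ∈ s, g x • Real.log (x.2 : ℕ) = 0 := by
    have h2 : ∑ x ∈ s, g x • (h x.1 * Real.log (x.2 : ℕ)) = h 0 * ∑ x ∈ s, g x • Real.log (x.2 : ℕ) := by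
      rw [Finset.mul_sum]
      refine Finset.sum_congr rfl fun x _ => ?_
      rw [Subsingleton.elim x.1 0, Rat.smul_def, Rat.smul_def]
      ring
    rw [h2] at hg
    exact (mul_eq_zero.1 hg).resolve_left h0
  have hinj : Function.Injective (fun x : Fin 1 × Nat.Primes => x.2) := by
    rintro ⟨a, b⟩ ⟨c, d⟩ hx
    rw [Prod.mk.injEq]
    exact ⟨Subsingleton.elim _ _, hx⟩
  exact linearIndependent_iff'.1 (indep_primes.comp _ hinj) s g h1

/-- algebraic dilations, by Baker's theorem -/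
lemma indep_alg (h : Fin r → ℝ) (ha : ∀ j, IsAlgebraic ℚ (h j)) (hl : LinearIndependent ℚ h) : Indep h := by
  classical
  unfold Indep
  rw [linearIndependent_iff']
  intro s g hg
  -- extend to a product set
  obtain ⟨P, hP⟩ : ∃ P : Finset Nat.Primes, s ⊆ Finset.univ ×ˢ P :=
    ⟨s.image Prod.snd, fun x hx => Finset.mem_product.2 ⟨Finset.mem_univ _, Finset.mem_image_of_mem _ hx⟩⟩
  set g' : Fin r × Nat.Primes → ℚ := fun x => if x ∈ s then g x else 0 with hg'
  have h1 : ∑ p ∈ P, (∑ j, (g' (j, p) : ℝ) * h j) * Real.log (p : ℕ) = 0 := by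
    have h2 : ∑ x ∈ Finset.univ ×ˢ P, g' x • (h x.1 * Real.log (x.2 : ℕ)) = 0 := by
      rw [← hg, ← Finset.sum_subset hP]
      · refine Finset.sum_congr rfl fun x hx => ?_
        rw [hg']
        simp only [if_pos hx]
      · intro x _ hx
        rw [hg']
        simp only [if_neg hx, zero_smul]
    rw [Finset.sum_product_right] at h2
    rw [← h2]
    refine Finset.sum_congr rfl fun p _ => ?_
    rw [Finset.sum_mul]
    refine Finset.sum_congr rfl fun j _ => ?_
    rw [Rat.smul_def]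
    ring
  have halg : ∀ p : P, IsAlgebraic ℚ (((∑ j, (g' (j, p) : ℝ) * h j : ℝ)) : ℂ) := by
    intro p
    have h2 : IsAlgebraic ℚ (∑ j, (g' (j, (p : Nat.Primes)) : ℝ) * h j) := by
      rw [isAlgebraic_iff_isIntegral]
      refine IsIntegral.sum _ fun j _ => ?_
      rw [← isAlgebraic_iff_isIntegral]
      exact (isAlgebraic_algebraMap (g' (j, (p : Nat.Primes)))).mul (ha j)
    exact h2.algebraMap (A := ℂ)
  have hω : LinearIndependent ℚ (fun p : P => ((Real.log ((p : Nat.Primes) : ℕ) : ℝ) : ℂ)) := by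
    have h2 : LinearIndependent ℚ (fun p : P => Real.log ((p : Nat.Primes) : ℕ)) :=
      indep_primes.comp _ Subtype.val_injective
    rw [linearIndependent_iff'] at h2 ⊢
    intro t u hu
    refine h2 t u ?_
    have h3 : ((∑ i ∈ t, u i • Real.log ((i : Nat.Primes) : ℕ) : ℝ) : ℂ) = 0 := by
      rw [← hu]
      push_cast
      refine Finset.sum_congr rfl fun i _ => ?_
      rw [Rat.smul_def]
    exact_mod_cast h3
  have key := Pool.Agent.H297R2.baker (fun p : P => ((Real.log ((p : Nat.Primes) : ℕ) : ℝ) : ℂ)) (fun p => by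
      have hp : (0 : ℝ) < ((p : Nat.Primes) : ℕ) := by exact_mod_cast (p : Nat.Primes).2.pos
      rw [← Complex.ofReal_exp, Real.exp_log hp]
      push_cast
      exact isAlgebraic_natCast _) hω (fun p => ((∑ j, (g' (j, p) : ℝ) * h j : ℝ) : ℂ)) halg (by
      rw [← Complex.ofReal_zero, ← h1, ← Finset.sum_coe_sort P]
      push_cast
      rfl)
  intro x hx
  have hxP : x.2 ∈ P := (Finset.mem_product.1 (hP hx)).2
  have h2 := key ⟨x.2, hxP⟩
  have h3 : ∑ j, (g' (j, x.2) : ℝ) * h j = 0 := by exact_mod_cast h2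
  have h4 := Fintype.linearIndependent_iff.1 hl (fun j => g' (j, x.2)) (by
    rw [← h3]
    refine Finset.sum_congr rfl fun j _ => ?_
    rw [Rat.smul_def]) x.1
  rw [hg'] at h4
  simpa [hx] using h4

/-- dyadic intervals at the continuity points -/
theorem zr_dy {S : ℝ → Set ℝ} (hS : Apx S) {x : ℝ} (hc : ContinuousAt (fun y => ld (S y)) x) {ε : ℝ} (hε : 0 < ε) :
    ∀ᶠ T : ℝ in atTop, |(PE (S x) T (2 * T) : ℝ) - ld (S x) * NN riemannZeta T (2 * T)| ≤ ε * NN riemannZeta T (2 * T) ∧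
      ((3 - cMTinv) / 2 * ld (S x) - ε) * NN riemannZeta T (2 * T) ≤ ((zD (S x) T (2 * T)).ncard : ℝ) := by
  obtain ⟨δ, hδ, h1⟩ := Metric.continuousAt_iff.1 hc (ε / 8) (by positivity)
  have hy := h1 (x := x - δ / 2) (by rw [Real.dist_eq, sub_sub_cancel_left, abs_neg, abs_of_pos (by linarith)]; linarith)
  have hz := h1 (x := x + δ / 2) (by rw [Real.dist_eq, add_sub_cancel_left, abs_of_pos (by linarith)]; linarith)
  rw [Real.dist_eq, abs_lt] at hy hz
  filter_upwards [(apx_all hS (show x < x + δ / 2 by linarith) (show 0 < ε / 4 by positivity)).2.1,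
    (apx_all hS (show x - δ / 2 < x by linarith) (show 0 < ε / 4 by positivity)).2.2,
    apx_simple hS (show x - δ / 2 < x by linarith) (show 0 < ε / 4 by positivity), eventually_ge_atTop (1 : ℝ)] with T g1 g2 g3 hT
  rw [← PE_eq _ hT] at g1 g2
  have hN : (0 : ℝ) ≤ NN riemannZeta T (2 * T) := Nat.cast_nonneg _
  refine ⟨?_, ?_⟩
  · rw [abs_le]
    constructor <;> nlinarith
  · rw [zD_eq _ hT]
    have h3 : ((3 - cMTinv) / 2 * ld (S x) - ε) * (NN riemannZeta T (2 * T) : ℝ) ≤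
        (4 * ld (S (x - δ / 2)) - (1 + cMTinv) * ld (S x) - ε / 4) / 2 * NN riemannZeta T (2 * T) :=
      mul_le_mul_of_nonneg_right (by nlinarith) hN
    linarith [g3.2]

/-- away from a countable set of radii the joint density is the product of the densities -/
theorem Dat.law (D : Dat r) : ∃ C : Set ℝ, C.Countable ∧ ∀ x, x ∉ C →
    ContinuousAt (fun y => ld (D.S y)) x ∧ ld (D.S x) = ∏ j, ld ((D.one j).S x) := by
  have hm : Monotone (fun y => ld (D.S y)) := fun x y h => ld_mono (D.S_mono h)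
  have hm1 : ∀ j, Monotone (fun y => ld ((D.one j).S y)) := fun j x y h => ld_mono ((D.one j).S_mono h)
  refine ⟨{x | ¬ ContinuousAt (fun y => ld (D.S y)) x} ∪ ⋃ j, {x | ¬ ContinuousAt (fun y => ld ((D.one j).S y)) x},
    hm.countable_not_continuousAt.union (countable_iUnion fun j => (hm1 j).countable_not_continuousAt), fun x hx => ?_⟩
  simp only [Set.mem_union, Set.mem_ofPred_eq, Set.mem_iUnion, not_or, not_not, not_exists] at hx
  obtain ⟨h1, h2⟩ := hx
  have h3 : ContinuousAt (fun y => ∏ j, ld ((D.one j).S y)) x := tendsto_finsetProd _ fun j _ => h2 j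
  refine ⟨h1, le_antisymm ?_ ?_⟩
  · refine ge_of_tendsto (h3.tendsto.mono_left nhdsWithin_le_nhds : Tendsto _ (𝓝[>] x) _) ?_
    filter_upwards [self_mem_nhdsWithin] with y hy
    exact (D.prod_le hy).1
  · refine le_of_tendsto (h3.tendsto.mono_left nhdsWithin_le_nhds : Tendsto _ (𝓝[<] x) _) ?_
    filter_upwards [self_mem_nhdsWithin] with y hy
    exact (D.prod_le hy).2

lemma exists_good (D : Dat r) {x y : ℝ} (hxy : x < y) : ∃ z, x < z ∧ z < y ∧
    ContinuousAt (fun w => ld (D.S w)) z ∧ ld (D.S z) = ∏ j, ld ((D.one j).S z) := by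
  obtain ⟨C, hC, h⟩ := D.law
  obtain ⟨z, hz, h1, h2⟩ := (hC.dense_compl ℝ).exists_between hxy
  exact ⟨z, h1, h2, h z hz⟩

lemma zS_sub {E F : Set ℝ} (h : E ⊆ F) (X : ℝ) : (zS E 0 X).ncard ≤ (zS F 0 X).ncard :=
  Set.ncard_le_ncard (fun _ hs => ⟨hs.1, hs.2.1, hs.2.2.1, h hs.2.2.2⟩) ((zfin le_rfl).subset fun _ hs => hs.1)

lemma zD_sub {E F : Set ℝ} (h : E ⊆ F) (X : ℝ) : (zD E 0 X).ncard ≤ (zD F 0 X).ncard :=
  Set.ncard_le_ncard (fun _ hs => ⟨hs.1, hs.2.1, h hs.2.2⟩) ((zfin le_rfl).subset fun _ hs => hs.1)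

/-- simple and distinct zeros with smaller radii -/
theorem Dat.clean (D : Dat r) {x y : ℝ} (hxy : x < y) : ∀ᶠ T : ℝ in atTop,
    0.6725 * (∏ j, ld ((D.one j).S x)) * (NN riemannZeta 0 T : ℝ) ≤ (zS (D.S y) 0 T).ncard ∧
    0.8362 * (∏ j, ld ((D.one j).S x)) * (NN riemannZeta 0 T : ℝ) ≤ (zD (D.S y) 0 T).ncard := by
  obtain ⟨z, h1, h2, h3, h4⟩ := exists_good D hxy
  obtain ⟨-, -, h5, h6⟩ := zr_all D.apx h3
  have h7 : ∏ j, ld ((D.one j).S x) ≤ ld (D.S z) := by
    rw [h4]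
    exact Finset.prod_le_prod (fun j _ => ld_nonneg _) fun j _ => ld_mono ((D.one j).S_mono h1.le)
  have h8 : 0 ≤ ∏ j, ld ((D.one j).S x) := Finset.prod_nonneg fun j _ => ld_nonneg _
  rcases eq_or_lt_of_le h8 with h9 | h9
  · rw [← h9]
    refine Eventually.of_forall fun T => ⟨?_, ?_⟩
    · rw [mul_zero, zero_mul]; exact Nat.cast_nonneg _
    · rw [mul_zero, zero_mul]; exact Nat.cast_nonneg _
  · have hp : 0 < ld (D.S z) := h9.trans_le h7
    have hc := Pool.Agent.Q97.UM.cMT_strict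
    filter_upwards [h5 ((2 - cMTinv) * ld (D.S z) - 0.6725 * ld (D.S z)) (by nlinarith),
      h6 ((3 - cMTinv) / 2 * ld (D.S z) - 0.8362 * ld (D.S z)) (by nlinarith)] with T g1 g2
    have hN : (0 : ℝ) ≤ NN riemannZeta 0 T := Nat.cast_nonneg _
    constructor
    · have g3 : ((zS (D.S z) 0 T).ncard : ℝ) ≤ (zS (D.S y) 0 T).ncard := by exact_mod_cast zS_sub (D.S_mono h2.le) T
      have g4 : 0.6725 * (∏ j, ld ((D.one j).S x)) * (NN riemannZeta 0 T : ℝ) ≤ 0.6725 * ld (D.S z) * NN riemannZeta 0 T :=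
        mul_le_mul_of_nonneg_right (by linarith) hN
      rw [sub_sub_cancel] at g1
      linarith
    · have g3 : ((zD (D.S z) 0 T).ncard : ℝ) ≤ (zD (D.S y) 0 T).ncard := by exact_mod_cast zD_sub (D.S_mono h2.le) T
      have g4 : 0.8362 * (∏ j, ld ((D.one j).S x)) * (NN riemannZeta 0 T : ℝ) ≤ 0.8362 * ld (D.S z) * NN riemannZeta 0 T :=
        mul_le_mul_of_nonneg_right (by linarith) hN
      rw [sub_sub_cancel] at g2
      linarith

/-- real and extended lower densities -/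
lemma ld_pos_iff (E : Set ℝ) : 0 < ld E ↔ 0 < Pool.Agent.Y834.UT.ld E := by
  constructor
  · intro h
    obtain ⟨T0, hT0⟩ := ((ld_lt (show ld E / 2 < ld E by linarith)).and (eventually_ge_atTop (1 : ℝ))).exists_forall_of_atTop
    refine Pool.Agent.Y834.UT.ld_pos (c := ld E / 2) (T0 := max T0 1) (by linarith) (by positivity) fun T hT => ?_
    have h1 := (hT0 T ((le_max_left _ _).trans hT)).1
    rw [← ENNReal.ofReal_toReal (vl_fin E T)]
    exact ENNReal.ofReal_le_ofReal h1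
  · intro h
    unfold Pool.Agent.Y834.UT.ld at h
    obtain ⟨c, hc0, hc⟩ := exists_between h
    have h1 : ∀ᶠ T : ℝ in atTop, c < volume (E ∩ Icc 0 T) / ENNReal.ofReal T :=
      eventually_lt_of_lt_liminf hc (by isBoundedDefault)
    have hctop : c ≠ ⊤ := (hc.trans_le le_top).ne
    have hc1 : 0 < c.toReal := ENNReal.toReal_pos hc0.ne' hctop
    refine hc1.trans_le (ld_ge ?_)
    filter_upwards [h1, eventually_gt_atTop (0 : ℝ)] with T h2 hT
    have h3 : c * ENNReal.ofReal T ≤ volume (E ∩ Icc 0 T) := by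
      rw [← ENNReal.le_div_iff_mul_le (Or.inl (ENNReal.ofReal_pos.2 hT).ne') (Or.inl ENNReal.ofReal_ne_top)]
      exact h2.le
    have h4 := ENNReal.toReal_mono (vl_fin E T) h3
    rwa [ENNReal.toReal_mul, ENNReal.toReal_ofReal hT.le] at h4

/-- the targets -/
lemma tgt_iff {K : Set ℂ} (hK : IsCompact K) (hKs : ∀ z ∈ K, 1 / 2 < z.re ∧ z.re < 1) (f : ℂ → ℂ) :
    Pool.Agent.Y834.UT.Tgt K f ↔ ∀ ε : ℝ, 0 < ε → 0 < ld (Pool.Agent.Y834.UT.SS ε K f) := by
  rw [← (Pool.Agent.Y834.UT.main hK hKs f).1]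
  exact forall₂_congr fun ε _ => (ld_pos_iff _).symm

/-- single targets -/
lemma one_SS (D : Dat r) (j : Fin r) (f : ℂ → ℂ) (hA : D.A j = {f}) (x : ℝ) :
    (D.one j).S x = Pool.Agent.Y834.UT.SS (x * D.e j) (D.K j) f := by
  ext t
  unfold Dat.S Pool.Agent.Y834.UT.SS
  simp only [Set.mem_ofPred_eq, Fin.forall_fin_one]
  change Ev (D.K j) (D.A j) (x * D.e j) (fun z => riemannZeta (z + (1 * t : ℝ) * I)) ↔ _
  rw [hA, one_mul]
  constructor
  · rintro ⟨g, rfl, δ, hδ, h⟩
    exact ⟨δ, hδ, h⟩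
  · rintro ⟨δ, hδ, h⟩
    exact ⟨f, rfl, δ, hδ, h⟩

lemma NN_tendsto : Tendsto (fun T : ℝ => (NN riemannZeta 0 T : ℝ)) atTop atTop := by
  obtain ⟨c, T0, hc, hT0, h⟩ := nn_lower
  have h1 : ∀ᶠ T : ℝ in atTop, c * (T / 2) ≤ (NN riemannZeta 0 T : ℝ) := by
    filter_upwards [eventually_ge_atTop (2 * T0 + 100)] with T hT
    have h2 := h (T / 2) (by linarith) (T / 2) (by linarith) le_rfl
    have e : T / 2 + T / 2 = T := by ring
    rw [e] at h2
    have h3 : (NN riemannZeta (T / 2) T : ℝ) ≤ NN riemannZeta 0 T := by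
      have h4 := PE_mono Set.univ (a := T / 2) (X := T) (by linarith)
      have h5 : ∀ a b : ℝ, 0 ≤ a → PE Set.univ a b = NN riemannZeta a b := by
        intro a b ha
        have h6 := PE_compl Set.univ (a := a) (b := b) ha
        have h7 : PE (Set.univ : Set ℝ)ᶜ a b = 0 := by
          unfold PE zE
          simp
        omega
      rw [h5 _ _ (by linarith), h5 _ _ le_rfl] at h4
      exact_mod_cast h4
    refine le_trans ?_ (h2.trans h3)
    refine mul_le_mul_of_nonneg_left ?_ hc.le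
    have h6 : 1 ≤ Real.log (T / 2) := by
      rw [Real.le_log_iff_exp_le (by linarith)]
      have := Real.exp_one_lt_d9
      linarith
    nlinarith
  refine tendsto_atTop_mono' _ h1 ?_
  exact (tendsto_id.atTop_div_const (by norm_num)).const_mul_atTop hc

/-- **targets along the zeros** -/
theorem Dat.targets (D : Dat r) (f : Fin r → ℂ → ℂ) (hA : ∀ j, D.A j = {f j}) (hKs : ∀ j, ∀ z ∈ D.K j, 1 / 2 < z.re ∧ z.re < 1) :
    ((∀ j, Pool.Agent.Y834.UT.Tgt (D.K j) (f j)) → ∀ ε : ℝ, 0 < ε → ∃ κ : ℝ, 0 < κ ∧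
      ∀ᶠ T : ℝ in atTop, κ * NN riemannZeta 0 T ≤ (zS (D.S ε) 0 T).ncard) ∧
    ((∀ ε : ℝ, 0 < ε → ∃ κ : ℝ, 0 < κ ∧ ∃ᶠ T : ℝ in atTop, κ * NN riemannZeta 0 T ≤ (PE (D.S ε) 0 T : ℝ)) →
      ∀ j, Pool.Agent.Y834.UT.Tgt (D.K j) (f j)) := by
  constructor
  · intro h ε hε
    refine ⟨0.6725 * ∏ j, ld ((D.one j).S (ε / 2)), ?_, ?_⟩
    · refine mul_pos (by norm_num) (Finset.prod_pos fun j _ => ?_)
      rw [one_SS D j (f j) (hA j)]
      exact (tgt_iff (D.hK j) (hKs j) (f j)).1 (h j) _ (mul_pos (half_pos hε) (D.he j))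
    · filter_upwards [D.clean (half_lt_self hε)] with T hT
      exact hT.1
  · intro h j
    rw [tgt_iff (D.hK j) (hKs j)]
    intro δ hδ
    obtain ⟨z, h1, h2, h3, h4⟩ := exists_good D (show (0 : ℝ) < δ / D.e j from div_pos hδ (D.he j))
    obtain ⟨κ, hκ, hf⟩ := h z h1
    have h5 := (zr_all D.apx h3).2.1 (κ / 2) (half_pos hκ)
    have hN : ∀ᶠ T : ℝ in atTop, (0 : ℝ) < NN riemannZeta 0 T := NN_tendsto.eventually_gt_atTop 0
    obtain ⟨T, g1, g2, g3⟩ := (hf.and_eventually (h5.and hN)).exists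
    have g4 := (abs_le.1 g2).2
    have h6 : 0 < ld (D.S z) := by
      by_contra hc
      have h7 : ld (D.S z) * NN riemannZeta 0 T ≤ 0 := mul_nonpos_of_nonpos_of_nonneg (not_lt.1 hc) g3.le
      nlinarith
    rw [h4] at h6
    have h7 : 0 < ld ((D.one j).S z) := by
      refine lt_of_le_of_ne (ld_nonneg _) fun h8 => ?_
      rw [Finset.prod_eq_zero (Finset.mem_univ j) h8.symm] at h6
      exact lt_irrefl _ h6
    refine h7.trans_le ?_
    rw [one_SS D j (f j) (hA j)]
    refine ld_mono ?_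
    rintro t ⟨δ', h8, h9⟩
    refine ⟨δ', h8.trans ?_, h9⟩
    rwa [← lt_div_iff₀ (D.he j)]

end Pool.Agent.H4.UZ
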