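import Pool.Agent.H4.UZ.Wz

set_option autoImplicit false

/-! Monotone families of sets of ordinates which are approximated by almost periodic functions. -/

open Complex Filter Topology Set MeasureTheory

namespace Pool.Agent.H4.UZ

open H370 TH803TW TH803UC H295SI

open Classical in
/-- number of the zeros (with multiplicity) in `(A, B]` with ordinate in `E` -/
noncomputable def NE (A B : ℝ) (E : Set ℝ) : ℝ :=
  ∑ s ∈ (Zf riemannZeta A B).filter (fun s => s.im ∈ E), (mult riemannZeta s : ℝ)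

open Classical in
/-- number of the simple critical zeros in `(A, B]` with ordinate in `E` -/
noncomputable def SE (A B : ℝ) (E : Set ℝ) : ℕ :=
  ((Zf riemannZeta A B).filter (fun s => s.re = 1 / 2 ∧ mult riemannZeta s = 1 ∧ s.im ∈ E)).card

open Classical in
/-- number of the distinct zeros with `Re s ≤ 1/2` in `(A, B]` with ordinate in `E` -/
noncomputable def DE (A B : ℝ) (E : Set ℝ) : ℕ :=
  ((Zf riemannZeta A B).filter (fun s => s.re ≤ 1 / 2 ∧ s.im ∈ E)).card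

/-- families of sets which are approximated by almost periodic functions -/
def Apx (S : ℝ → Set ℝ) : Prop := (∀ x y, x ≤ y → S x ⊆ S y) ∧
  ∀ η δ : ℝ, 0 < η → 0 < δ → ∃ (SN : ℝ → Set ℝ) (Bad : Set ℝ), (∀ x y, x ≤ y → SN x ⊆ SN y) ∧
    (∀ x y, x < y → ∃ (φ : ℝ → ℝ) (m : ℕ → ℝ), (∀ k, APm (fun t => φ t ^ k) (m k)) ∧
      (∀ t, 0 ≤ φ t ∧ φ t ≤ 1) ∧ (∀ t ∈ SN x, φ t = 1) ∧ (∀ t, t ∉ SN y → φ t = 0)) ∧
    (∀ x, S x ⊆ SN (x + η) ∪ Bad) ∧ (∀ x, SN x ⊆ S (x + η) ∪ Bad) ∧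
    (∀ᶠ T : ℝ in atTop, vl Bad T ≤ δ * T) ∧
    (∀ᶠ T : ℝ in atTop, NE T (2 * T) Bad ≤ δ * NN riemannZeta T (2 * T))

lemma APm.lim_nonneg {φ : ℝ → ℝ} {M : ℝ} (h : APm φ M) (h0 : ∀ t, 0 ≤ φ t) : 0 ≤ M := by
  refine ge_of_tendsto (APm.mean h) ?_
  filter_upwards [eventually_gt_atTop (0 : ℝ)] with X hX
  exact div_nonneg (intervalIntegral.integral_nonneg hX.le fun t _ => h0 t) hX.le

/-- a mean value against a lower density -/
lemma mean_le {φ : ℝ → ℝ} {M δ : ℝ} (h : APm φ M) (h1 : ∀ t, φ t ≤ 1) {E Bad : Set ℝ}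
    (h0 : ∀ t, t ∉ E ∪ Bad → φ t ≤ 0) (hb : ∀ᶠ T : ℝ in atTop, vl Bad T ≤ δ * T) : M ≤ ld E + δ := by
  by_contra hc
  push Not at hc
  obtain ⟨ε, hε⟩ : ∃ ε, ε = (M - (ld E + δ)) / 2 := ⟨_, rfl⟩
  have hε0 : 0 < ε := by rw [hε]; linarith
  have h2 : M - δ - ε ≤ ld E := ld_ge (by
    filter_upwards [APm.ev_le h hε0, hb, eventually_ge_atTop (0 : ℝ)] with T h3 h4 hT
    have h5 := int_le_vl (APm.cont h) h1 h0 hT
    have h6 := vl_union E Bad T
    have h7 := (abs_le.1 h3).1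
    linarith)
  linarith

lemma mean_ge {φ : ℝ → ℝ} {M δ : ℝ} (h : APm φ M) (h0 : ∀ t, 0 ≤ φ t) {E F Bad : Set ℝ}
    (h1 : ∀ t ∈ F, 1 ≤ φ t) (hE : E ⊆ F ∪ Bad) (hb : ∀ᶠ T : ℝ in atTop, vl Bad T ≤ δ * T) {ε : ℝ} (hε : 0 < ε) :
    ∀ᶠ T : ℝ in atTop, vl E T ≤ (M + δ + ε) * T := by
  filter_upwards [APm.ev_le h hε, hb, eventually_ge_atTop (0 : ℝ)] with T h3 h4 hT
  have h5 := vl_le_int (APm.cont h) h0 h1 hT
  have h6 := vl_union F Bad T
  have h7 := (abs_le.1 h3).2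
  have h8 := vl_mono hE T
  linarith

section

variable {A B : ℝ}

lemma NE_mono {E F : Set ℝ} (h : E ⊆ F) : NE A B E ≤ NE A B F := by
  classical
  unfold NE
  refine Finset.sum_le_sum_of_subset_of_nonneg (fun s hs => ?_) fun _ _ _ => Nat.cast_nonneg _
  rw [Finset.mem_filter] at hs ⊢
  exact ⟨hs.1, h hs.2⟩

lemma NE_union (E F : Set ℝ) : NE A B (E ∪ F) ≤ NE A B E + NE A B F := by
  classical
  unfold NE
  rw [Finset.sum_filter, Finset.sum_filter, Finset.sum_filter, ← Finset.sum_add_distrib]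
  refine Finset.sum_le_sum fun s _ => ?_
  have h0 : (0 : ℝ) ≤ mult riemannZeta s := Nat.cast_nonneg _
  by_cases h1 : s.im ∈ E
  · rw [if_pos (show s.im ∈ E ∪ F from Or.inl h1), if_pos h1]
    split_ifs <;> linarith
  · by_cases h2 : s.im ∈ F
    · rw [if_pos (show s.im ∈ E ∪ F from Or.inr h2), if_neg h1, if_pos h2]; linarith
    · rw [if_neg (show s.im ∉ E ∪ F by rintro (h | h) <;> contradiction), if_neg h1, if_neg h2]; linarith

lemma SE_mono {E F : Set ℝ} (h : E ⊆ F) : SE A B E ≤ SE A B F := by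
  classical
  unfold SE
  refine Finset.card_le_card fun s hs => ?_
  rw [Finset.mem_filter] at hs ⊢
  exact ⟨hs.1, hs.2.1, hs.2.2.1, h hs.2.2.2⟩

lemma DE_mono {E F : Set ℝ} (h : E ⊆ F) : DE A B E ≤ DE A B F := by
  classical
  unfold DE
  refine Finset.card_le_card fun s hs => ?_
  rw [Finset.mem_filter] at hs ⊢
  exact ⟨hs.1, hs.2.1, h hs.2.2⟩

lemma mult_pos' (hA : 1 ≤ A) {s : ℂ} (hs : s ∈ Zf riemannZeta A B) : 1 ≤ mult riemannZeta s :=
  have h := (mem_Zf good_zeta hA).1 hs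
  Loc.mult_pos' good_zeta (show 0 < s.im by linarith [h.2.2.1]) h.2.2.2.2

lemma SE_union (hA : 1 ≤ A) (E F : Set ℝ) : (SE A B (E ∪ F) : ℝ) ≤ SE A B E + NE A B F := by
  classical
  unfold SE NE
  rw [Finset.card_filter, Finset.card_filter, Finset.sum_filter]
  push_cast
  rw [← Finset.sum_add_distrib]
  refine Finset.sum_le_sum fun s hs => ?_
  have h0 : (1 : ℝ) ≤ mult riemannZeta s := by exact_mod_cast mult_pos' hA hs
  by_cases h2 : s.im ∈ F
  · rw [if_pos h2]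
    split_ifs <;> linarith
  · rw [if_neg h2, add_zero]
    refine le_of_eq ?_
    congr 1
    rw [eq_iff_iff]
    constructor
    · rintro ⟨a, b, c | c⟩
      · exact ⟨a, b, c⟩
      · exact absurd c h2
    · rintro ⟨a, b, c⟩
      exact ⟨a, b, Or.inl c⟩

lemma DE_union (hA : 1 ≤ A) (E F : Set ℝ) : (DE A B (E ∪ F) : ℝ) ≤ DE A B E + NE A B F := by
  classical
  unfold DE NE
  rw [Finset.card_filter, Finset.card_filter, Finset.sum_filter]
  push_cast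
  rw [← Finset.sum_add_distrib]
  refine Finset.sum_le_sum fun s hs => ?_
  have h0 : (1 : ℝ) ≤ mult riemannZeta s := by exact_mod_cast mult_pos' hA hs
  by_cases h2 : s.im ∈ F
  · rw [if_pos h2]
    split_ifs <;> linarith
  · rw [if_neg h2, add_zero]
    refine le_of_eq ?_
    congr 1
    rw [eq_iff_iff]
    constructor
    · rintro ⟨a, c | c⟩
      · exact ⟨a, c⟩
      · exact absurd c h2
    · rintro ⟨a, c⟩
      exact ⟨a, Or.inl c⟩

lemma NE_le_MW {φ : ℝ → ℝ} (h0 : ∀ t, 0 ≤ φ t) {E : Set ℝ} (h1 : ∀ t ∈ E, 1 ≤ φ t) :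
    NE A B E ≤ MW riemannZeta A B φ := by
  classical
  unfold NE MW
  rw [Finset.sum_filter]
  refine Finset.sum_le_sum fun s _ => ?_
  have hm : (0 : ℝ) ≤ mult riemannZeta s := Nat.cast_nonneg _
  split_ifs with h
  · exact le_mul_of_one_le_right hm (h1 _ h)
  · exact mul_nonneg hm (h0 _)

lemma MW_le_NE {φ : ℝ → ℝ} (h1 : ∀ t, φ t ≤ 1) {E : Set ℝ} (h0 : ∀ t, t ∉ E → φ t ≤ 0) :
    MW riemannZeta A B φ ≤ NE A B E := by
  classical
  unfold NE MW
  rw [Finset.sum_filter]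
  refine Finset.sum_le_sum fun s _ => ?_
  have hm : (0 : ℝ) ≤ mult riemannZeta s := Nat.cast_nonneg _
  split_ifs with h
  · exact mul_le_of_le_one_right hm (h1 _)
  · exact mul_nonpos_of_nonneg_of_nonpos hm (h0 _ h)

lemma X1_le_SE {p : ℝ → ℝ} {E : Set ℝ} (h : ∀ t, 0 < p t → t ∈ E) : X1 riemannZeta A B p ≤ SE A B E := by
  classical
  unfold X1 SE
  refine Finset.card_le_card fun s hs => ?_
  rw [Finset.mem_filter] at hs ⊢
  exact ⟨hs.1, hs.2.1, hs.2.2.1, h _ hs.2.2.2⟩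

lemma X2_le_DE {p : ℝ → ℝ} {E : Set ℝ} (h : ∀ t, 0 < p t → t ∈ E) : X2 riemannZeta A B p ≤ DE A B E := by
  classical
  unfold X2 DE
  refine Finset.card_le_card fun s hs => ?_
  rw [Finset.mem_filter] at hs ⊢
  exact ⟨hs.1, hs.2.1, h _ hs.2.2⟩

end

variable {S : ℝ → Set ℝ}

/-- measure and number of zeros, from above and from below -/
theorem apx_all (hS : Apx S) {x y : ℝ} (hxy : x < y) {ε : ℝ} (hε : 0 < ε) :
    (∀ᶠ T : ℝ in atTop, vl (S x) T ≤ (ld (S y) + ε) * T) ∧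
    (∀ᶠ T : ℝ in atTop, NE T (2 * T) (S x) ≤ (ld (S y) + ε) * NN riemannZeta T (2 * T)) ∧
    (∀ᶠ T : ℝ in atTop, (ld (S x) - ε) * NN riemannZeta T (2 * T) ≤ NE T (2 * T) (S y)) := by
  obtain ⟨SN, Bad, hm, hu, hi1, hi2, hb1, hb2⟩ := hS.2 ((y - x) / 4) (ε / 8) (by linarith) (by positivity)
  obtain ⟨φ, m, hφm, hφ, hφ1, hφ0⟩ := hu (x + (y - x) / 4) (y - (y - x) / 4) (by linarith)
  have hAP : APm φ (m 1) := by simpa using hφm 1
  have hc0 : ∀ t, t ∉ S y ∪ Bad → φ t ≤ 0 := by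
    intro t ht
    refine (hφ0 t fun h => ht ?_).le
    have h1 := hi2 (y - (y - x) / 4) h
    have e : y - (y - x) / 4 + (y - x) / 4 = y := by ring
    rwa [e] at h1
  have hM1 : m 1 ≤ ld (S y) + ε / 8 := mean_le hAP (fun t => (hφ t).2) hc0 hb1
  have hM2 : ∀ᶠ T : ℝ in atTop, vl (S x) T ≤ (m 1 + ε / 8 + ε / 8) * T :=
    mean_ge hAP (fun t => (hφ t).1) (F := SN (x + (y - x) / 4)) (fun t ht => (hφ1 t ht).ge) (hi1 x) hb1 (by positivity)
  have hM3 : ld (S x) ≤ m 1 + ε / 8 + ε / 8 := ld_le hM2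
  have hMW := MW_ev hAP (show 0 < ε / 8 by positivity)
  refine ⟨?_, ?_, ?_⟩
  · filter_upwards [hM2, eventually_ge_atTop (0 : ℝ)] with T h1 hT
    refine h1.trans (mul_le_mul_of_nonneg_right (by linarith) hT)
  · filter_upwards [hMW, hb2] with T h1 h2
    have h3 := NE_mono (A := T) (B := 2 * T) (hi1 x)
    have h4 := NE_union (A := T) (B := 2 * T) (SN (x + (y - x) / 4)) Bad
    have h5 := NE_le_MW (A := T) (B := 2 * T) (fun t => (hφ t).1) (E := SN (x + (y - x) / 4)) (fun t ht => (hφ1 t ht).ge)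
    have h6 := (abs_le.1 h1).2
    have h7 : (0 : ℝ) ≤ NN riemannZeta T (2 * T) := Nat.cast_nonneg _
    have h8 : m 1 * NN riemannZeta T (2 * T) ≤ (ld (S y) + ε / 8) * NN riemannZeta T (2 * T) :=
      mul_le_mul_of_nonneg_right hM1 h7
    have h9 : 0 ≤ ε * NN riemannZeta T (2 * T) := by positivity
    linarith
  · filter_upwards [hMW, hb2] with T h1 h2
    have h4 := NE_union (A := T) (B := 2 * T) (S y) Bad
    have h5 := MW_le_NE (A := T) (B := 2 * T) (fun t => (hφ t).2) hc0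
    have h6 := (abs_le.1 h1).1
    have h7 : (0 : ℝ) ≤ NN riemannZeta T (2 * T) := Nat.cast_nonneg _
    have h8 : ld (S x) * NN riemannZeta T (2 * T) ≤ (m 1 + ε / 8 + ε / 8) * NN riemannZeta T (2 * T) :=
      mul_le_mul_of_nonneg_right hM3 h7
    have h9 : 0 ≤ ε * NN riemannZeta T (2 * T) := by positivity
    linarith

lemma cMT_nonneg : 0 ≤ cMTinv := by
  unfold cMTinv
  have h2 : 0 < Real.sqrt 2 := by positivity
  have h3 : 1 ≤ Real.sqrt 2 := by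
    rw [Real.le_sqrt' one_pos]; norm_num
  have h5 : (1 : ℝ) / Real.sqrt 2 ≤ 1 := by rw [div_le_one h2]; exact h3
  have h6 : 0 < (1 : ℝ) / Real.sqrt 2 := by positivity
  have h7 : 0 ≤ Real.cot (1 / Real.sqrt 2) := by
    rw [Real.cot_eq_cos_div_sin]
    have := Real.pi_gt_three
    exact div_nonneg (Real.cos_nonneg_of_neg_pi_div_two_le_of_le (by linarith) (by linarith))
      (Real.sin_nonneg_of_nonneg_of_le_pi h6.le (by linarith))
  positivity

/-- simple and distinct zeros -/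
theorem apx_simple (hS : Apx S) {x y : ℝ} (hxy : x < y) {ε : ℝ} (hε : 0 < ε) :
    ∀ᶠ T : ℝ in atTop,
      (4 * ld (S x) - (2 + cMTinv) * ld (S y) - ε) * NN riemannZeta T (2 * T) ≤ SE T (2 * T) (S y) ∧
      (4 * ld (S x) - (1 + cMTinv) * ld (S y) - ε) * NN riemannZeta T (2 * T) ≤ 2 * DE T (2 * T) (S y) := by
  have hc := cMT_nonneg
  obtain ⟨δ, hδ⟩ : ∃ δ, δ = ε / (20 * (2 + cMTinv)) := ⟨_, rfl⟩
  have hδ0 : 0 < δ := by rw [hδ]; positivity
  have hδ1 : δ * (20 * (2 + cMTinv)) = ε := by rw [hδ]; field_simp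
  have hδ2 : 40 * δ ≤ ε := by nlinarith
  obtain ⟨η, hη⟩ : ∃ η, η = (y - x) / 8 := ⟨_, rfl⟩
  have hη0 : 0 < η := by rw [hη]; linarith
  obtain ⟨SN, Bad, hm, hu, hi1, hi2, hb1, hb2⟩ := hS.2 η δ hη0 hδ0
  obtain ⟨φ, m, hφm, hφ, hφ1, hφ0⟩ := hu (x + η) (x + 2 * η) (by linarith)
  obtain ⟨q, mq, hqm, hq, hq1, hq0⟩ := hu (x + 2 * η) (x + 3 * η) (by linarith)
  have hqAP : APm q (mq 1) := by simpa using hqm 1
  have hsupp : ∀ z, z ≤ x + 4 * η → SN z ⊆ S y ∪ Bad := fun z hz t ht => by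
    rcases hi2 z ht with h | h
    · exact Or.inl (hS.1 _ _ (by rw [hη] at hz ⊢; linarith) h)
    · exact Or.inr h
  -- the mean values
  have hpow : ∀ k : ℕ, ∀ t, 0 ≤ φ t ^ k ∧ φ t ^ k ≤ 1 := fun k t =>
    ⟨pow_nonneg (hφ t).1 k, pow_le_one₀ (hφ t).1 (hφ t).2⟩
  have hM2 : ld (S x) ≤ m 2 + δ + δ := by
    refine ld_le (mean_ge (hφm 2) (fun t => (hpow 2 t).1) (F := SN (x + η)) (fun t ht => ?_) (hi1 x) hb1 hδ0)
    rw [hφ1 t ht, one_pow]
  have hM4 : m 4 ≤ ld (S y) + δ := by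
    refine mean_le (hφm 4) (fun t => (hpow 4 t).2) (fun t ht => ?_) hb1
    rw [hφ0 t fun h => ht (hsupp _ (by linarith) h)]
    norm_num
  have hMq : mq 1 ≤ ld (S y) + δ := by
    refine mean_le hqAP (fun t => (hq t).2) (fun t ht => ?_) hb1
    rw [hq0 t fun h => ht (hsupp _ (by linarith) h)]
  have hm40 : 0 ≤ m 4 := APm.lim_nonneg (hφm 4) fun t => (hpow 4 t).1
  have hqp : ∀ t, 0 < φ t → 1 ≤ q t := by
    intro t ht
    have h1 : t ∈ SN (x + 2 * η) := by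
      by_contra h
      rw [hφ0 t h] at ht
      exact lt_irrefl _ ht
    exact (hq1 t h1).ge
  have hX := XX_ev hφm hqAP (fun t => (hφ t).1) (fun t => (hφ t).2) (fun t => (hq t).1) hqp hm40 hδ0
  have hpos : ∀ t, 0 < φ t → t ∈ S y ∪ Bad := by
    intro t ht
    refine hsupp (x + 2 * η) (by linarith) ?_
    by_contra h
    rw [hφ0 t h] at ht
    exact lt_irrefl _ ht
  filter_upwards [hX, hb2, eventually_ge_atTop (1 : ℝ)] with T h1 h2 hT
  obtain ⟨h3, h4⟩ := h1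
  have hN : (0 : ℝ) ≤ NN riemannZeta T (2 * T) := Nat.cast_nonneg _
  have h5 : (X1 riemannZeta T (2 * T) φ : ℝ) ≤ SE T (2 * T) (S y ∪ Bad) := by exact_mod_cast X1_le_SE hpos
  have h6 : (X2 riemannZeta T (2 * T) φ : ℝ) ≤ DE T (2 * T) (S y ∪ Bad) := by exact_mod_cast X2_le_DE hpos
  have h7 := SE_union (B := 2 * T) hT (S y) Bad
  have h8 := DE_union (B := 2 * T) hT (S y) Bad
  have hcm : m 4 * cMTinv ≤ (ld (S y) + δ) * cMTinv := mul_le_mul_of_nonneg_right hM4 hc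
  have hcd : δ * cMTinv * 20 ≤ ε := by nlinarith
  constructor
  · have g1 : (4 * ld (S x) - (2 + cMTinv) * ld (S y) - ε) * NN riemannZeta T (2 * T) ≤
        (4 * m 2 - 2 * mq 1 - m 4 * cMTinv - δ - δ) * NN riemannZeta T (2 * T) := by
      apply mul_le_mul_of_nonneg_right _ hN
      nlinarith
    have g2 : (4 * m 2 - 2 * mq 1 - m 4 * cMTinv - δ - δ) * NN riemannZeta T (2 * T) =
        (4 * m 2 - 2 * mq 1 - m 4 * cMTinv - δ) * NN riemannZeta T (2 * T) - δ * NN riemannZeta T (2 * T) := by ring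
    linarith
  · have g1 : (4 * ld (S x) - (1 + cMTinv) * ld (S y) - ε) * NN riemannZeta T (2 * T) ≤
        (4 * m 2 - mq 1 - m 4 * cMTinv - δ - 2 * δ) * NN riemannZeta T (2 * T) := by
      apply mul_le_mul_of_nonneg_right _ hN
      nlinarith
    have g2 : (4 * m 2 - mq 1 - m 4 * cMTinv - δ - 2 * δ) * NN riemannZeta T (2 * T) =
        (4 * m 2 - mq 1 - m 4 * cMTinv - δ) * NN riemannZeta T (2 * T) - 2 * (δ * NN riemannZeta T (2 * T)) := by ring
    linarith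

end Pool.Agent.H4.UZ
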