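import Pool.Agent.H4.UZ.Ab
import Pool.Graph.R_seed8.Helper240.ZU.A4
import Pool.Graph.R_seed8.Helper240.ZU.D
import Pool.Graph.R_seed8.Helper240.ZU.E1b
import Pool.Graph.R_seed8.Helper240.ZU.F

set_option autoImplicit false

/-! The exceptional set: `ζ(z + i h t)` is close to its Dirichlet polynomial for almost all `t` and at almost all
zeros. -/

open Complex Filter Topology Set MeasureTheory

namespace Pool.Agent.H4.UZ

open H370 TH803TW TH803UC H295SI

/-- the zeros in a set which is fat after thickening -/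
lemma bad_zeros : ∃ C : ℝ, 0 < C ∧ ∀ (G : ℝ → ℝ) (Bad : Set ℝ), Continuous G → (∀ t, 0 ≤ G t) →
    (∀ u ∈ Bad, ∀ v, |u - v| ≤ 1 → 1 ≤ G v) → ∀ T : ℝ, 4 ≤ T →
    NE T (2 * T) Bad ≤ C * Real.log T * ∫ t in (0 : ℝ)..(2 * T + 1), G t := by
  classical
  obtain ⟨C, hC, h⟩ := local_sum good_zeta
  refine ⟨C, hC, fun G Bad hG hG0 hB T hT => ?_⟩
  have hw : ∀ k : ℤ, 0 ≤ ∫ t in (k : ℝ)..(k + 1 : ℝ), G t := fun k =>
    intervalIntegral.integral_nonneg (by linarith) fun t _ => hG0 t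
  have h1 := h T hT T (2 * T) le_rfl le_rfl 0 (fun k => ∫ t in (k : ℝ)..(k + 1 : ℝ), G t) hw
    (fun s => if s.im ∈ Bad then 1 else 0) (by
      intro s hs
      rw [sub_zero]
      split_ifs with hb
      · have h2 : ∫ t in (⌊s.im⌋ : ℝ)..(⌊s.im⌋ + 1 : ℝ), (1 : ℝ) ≤ ∫ t in (⌊s.im⌋ : ℝ)..(⌊s.im⌋ + 1 : ℝ), G t := by
          refine intervalIntegral.integral_mono_on (by linarith) (by simp) (hG.intervalIntegrable _ _) fun t ht => ?_
          refine hB _ hb t ?_
          have h3 := Int.floor_le s.im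
          have h4 := Int.lt_floor_add_one s.im
          rw [abs_le]
          constructor <;> linarith [ht.1, ht.2]
        simpa using h2
      · exact hw _)
  have h2 : NE T (2 * T) Bad = ∑ s ∈ Zf riemannZeta T (2 * T), (mult riemannZeta s : ℝ) * (if s.im ∈ Bad then 1 else 0) := by
    unfold NE
    rw [Finset.sum_filter]
    refine Finset.sum_congr rfl fun s _ => ?_
    split_ifs <;> simp
  rw [h2]
  refine h1.trans (mul_le_mul_of_nonneg_left ?_ (by
    have : 0 ≤ Real.log T := Real.log_nonneg (by linarith)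
    positivity))
  set I := (Zf riemannZeta T (2 * T)).image (fun s => ⌊s.im - 0⌋) with hI
  have hIm : ∀ k ∈ I, (0 : ℤ) ≤ k ∧ (k : ℝ) + 1 ≤ 2 * T + 1 := by
    intro k hk
    rw [hI, Finset.mem_image] at hk
    obtain ⟨s, hs, rfl⟩ := hk
    have hs' := (mem_Zf good_zeta (by linarith)).1 hs
    rw [sub_zero]
    constructor
    · rw [Int.floor_nonneg]; linarith [hs'.2.2.1]
    · have := Int.floor_le s.im
      linarith [hs'.2.2.2.1]
  have h3 : ∀ k ∈ I, ∫ t in (k : ℝ)..(k + 1 : ℝ), G t = ∫ t in Ioc (k : ℝ) (k + 1 : ℝ), G t := fun k _ =>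
    intervalIntegral.integral_of_le (by linarith)
  rw [Finset.sum_congr rfl h3, ← integral_biUnion_finset]
  · rw [intervalIntegral.integral_of_le (by linarith)]
    refine setIntegral_mono_set ?_ (Filter.Eventually.of_forall fun t => hG0 t) ?_
    · exact (hG.integrableOn_Icc (a := 0) (b := 2 * T + 1)).mono_set Ioc_subset_Icc_self
    · refine LE.le.eventuallyLE ?_
      intro t ht
      simp only [mem_iUnion] at ht
      obtain ⟨k, hk, ht⟩ := ht
      obtain ⟨g1, g2⟩ := hIm k hk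
      have g3 : (0 : ℝ) ≤ k := by exact_mod_cast g1
      exact ⟨by linarith [ht.1], by linarith [ht.2]⟩
  · exact fun k _ => measurableSet_Ioc
  · intro k _ l _ hkl
    rw [Function.onFun, Set.disjoint_left]
    rintro t ⟨a1, a2⟩ ⟨b1, b2⟩
    apply hkl
    have c1 : (k : ℝ) < l + 1 := by linarith
    have c2 : (l : ℝ) < k + 1 := by linarith
    have c1' : k < l + 1 := by exact_mod_cast c1
    have c2' : l < k + 1 := by exact_mod_cast c2
    omega
  · exact fun k _ => (hG.integrableOn_Icc (a := (k : ℝ)) (b := k + 1)).mono_set Ioc_subset_Icc_self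

lemma bad_vl {G : ℝ → ℝ} {Bad : Set ℝ} (hG : Continuous G) (hG0 : ∀ t, 0 ≤ G t) (hB : ∀ u ∈ Bad, 1 ≤ G u)
    {T : ℝ} (hT : 0 ≤ T) : vl Bad T ≤ ∫ t in (0 : ℝ)..T, G t :=
  vl_le_int hG hG0 hB hT

/-- a majorant with small mean value controls both the measure and the number of the zeros -/
lemma bad_small {δ : ℝ} (hδ : 0 < δ) : ∃ δ' : ℝ, 0 < δ' ∧ ∀ (G : ℝ → ℝ) (Bad : Set ℝ), Continuous G → (∀ t, 0 ≤ G t) →
    (∀ u ∈ Bad, ∀ v, |u - v| ≤ 1 → 1 ≤ G v) → (∀ᶠ T : ℝ in atTop, ∫ t in (0 : ℝ)..T, G t ≤ δ' * T) →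
    (∀ᶠ T : ℝ in atTop, vl Bad T ≤ δ * T) ∧ (∀ᶠ T : ℝ in atTop, NE T (2 * T) Bad ≤ δ * NN riemannZeta T (2 * T)) := by
  obtain ⟨C, hC, h⟩ := bad_zeros
  obtain ⟨c, T1, hc, hT1, hn⟩ := nn_lower
  refine ⟨min δ (δ * c / (3 * C)), by positivity, fun G Bad hG hG0 hB hT => ⟨?_, ?_⟩⟩
  · filter_upwards [hT, eventually_ge_atTop (0 : ℝ)] with T h1 h2
    refine (bad_vl hG hG0 (fun u hu => hB u hu u (by simp)) h2).trans (h1.trans ?_)
    exact mul_le_mul_of_nonneg_right (min_le_left _ _) h2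
  · have hT2 : Tendsto (fun T : ℝ => 2 * T + 1) atTop atTop :=
      tendsto_atTop_add_const_right _ _ (tendsto_id.const_mul_atTop (by norm_num))
    filter_upwards [hT2.eventually hT, eventually_ge_atTop (4 : ℝ), eventually_ge_atTop T1] with T h1 h2 h3
    have h4 := h G Bad hG hG0 hB T h2
    have h5 := hn T h3 T (by linarith) le_rfl
    have e : T + T = 2 * T := by ring
    rw [e] at h5
    have hL : 0 ≤ Real.log T := Real.log_nonneg (by linarith)
    have h6 : C * Real.log T * ∫ t in (0 : ℝ)..(2 * T + 1), G t ≤ C * Real.log T * (δ * c / (3 * C) * (3 * T)) := by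
      refine mul_le_mul_of_nonneg_left (h1.trans ?_) (by positivity)
      exact mul_le_mul (min_le_right _ _) (by linarith) (by linarith) (by positivity)
    have h7 : C * Real.log T * (δ * c / (3 * C) * (3 * T)) = δ * (c * (T * Real.log T)) := by
      field_simp
    have h8 := mul_le_mul_of_nonneg_left h5 hδ.le
    linarith

open ZU in
/-- a majorant for the distance of `ζ` to its Dirichlet polynomials -/
lemma exists_major {K : Set ℂ} (hK : IsCompact K) (hKs : K ⊆ {z | 1 / 2 < z.re ∧ z.re < 1}) {h : ℝ} (hh : 0 < h)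
    {η δ : ℝ} (hη : 0 < η) (hδ : 0 < δ) : ∃ N0 : ℕ, ∀ N ≥ N0, ∃ G : ℝ → ℝ, Continuous G ∧ (∀ t, 0 ≤ G t) ∧
      (∀ u v : ℝ, (∃ s ∈ K, η ≤ ‖riemannZeta (s + (h * u : ℝ) * I) - DN N (s + (h * u : ℝ) * I)‖) → |u - v| ≤ 1 → 1 ≤ G v) ∧
      ∀ᶠ T : ℝ in atTop, ∫ t in (0 : ℝ)..T, G t ≤ δ * T := by
  obtain ⟨a, b, B, h1, h2, h3, h4, hsub⟩ := J_f.exists_rectV K hK hKs
  obtain ⟨C, hC, hCs⟩ := J_d.sup_le_area a b ((1 / 2 + a) / 2) ((b + 1) / 2) (B + h) (B + h + 1) (by linarith) h2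
    (by linarith) (by linarith) (by linarith)
  set a' := (1 / 2 + a) / 2 with ha'
  set b' := (b + 1) / 2 with hb'
  set B' := B + h + 1 with hB'
  have ha1 : 1 / 2 < a' := by rw [ha']; linarith
  have hab' : a' < b' := by rw [ha', hb']; linarith
  have hb1 : b' < 1 := by rw [hb']; linarith
  have hB1 : 0 < B' := by rw [hB']; linarith
  obtain ⟨ε, hε⟩ : ∃ ε, ε = δ * η ^ 2 / (C * ((b' - a') * (2 * B'))) := ⟨_, rfl⟩
  have hba : 0 < b' - a' := by linarith
  have hε0 : 0 < ε := by rw [hε]; positivity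
  obtain ⟨N0, hN0⟩ := J_a4.zeta_meansq a' b' ha1 hab'.le hb1 B' hB1 ε hε0
  refine ⟨N0, fun N hN => ?_⟩
  obtain ⟨T0, hT0, hTm⟩ := hN0 N hN
  set g : ℂ → ℂ := fun s => riemannZeta s - DN N s with hg
  have hgd : DifferentiableOn ℂ g {z : ℂ | z.re < 1} := by
    intro s hs
    have hs1 : s ≠ 1 := by rintro rfl; simp at hs
    refine (DifferentiableAt.sub (differentiableAt_riemannZeta hs1) ?_).differentiableWithinAt
    unfold DN
    refine DifferentiableAt.fun_sum fun n hn => ?_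
    have hn0 : (n : ℂ) ≠ 0 := by
      have := (Finset.mem_Icc.1 hn).1
      exact_mod_cast (by omega : n ≠ 0)
    exact (differentiableAt_id.neg).const_cpow (Or.inl hn0)
  have hgc : ContinuousOn g {z : ℂ | a' ≤ z.re ∧ z.re ≤ b'} :=
    hgd.continuousOn.mono fun z hz => lt_of_le_of_lt hz.2 hb1
  -- the bound in mean square on every vertical line
  have hV : ∀ T : ℝ, T0 ≤ T → ∀ s ∈ rect a' b' B', ∫ t in (0 : ℝ)..T, (1 : ℝ) * ‖g (s + t * I)‖ ^ 2 ≤ ε * T := by
    intro T hT s hs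
    have h5 := hTm T hT s.re ⟨hs.1, hs.2.1⟩
    have h6 : ∫ t in (0 : ℝ)..T, (1 : ℝ) * ‖g (s + t * I)‖ ^ 2 =
        ∫ t in (s.im)..(T + s.im), ‖g (s.re + t * I)‖ ^ 2 := by
      have h7 := intervalIntegral.integral_comp_add_right (a := 0) (b := T) (fun t : ℝ => ‖g (s.re + t * I)‖ ^ 2) s.im
      rw [zero_add] at h7
      rw [← h7]
      refine intervalIntegral.integral_congr fun t _ => ?_
      change (1 : ℝ) * ‖g (s + t * I)‖ ^ 2 = ‖g (s.re + ((t + s.im : ℝ) : ℂ) * I)‖ ^ 2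
      rw [one_mul]
      congr 3
      apply Complex.ext <;> simp
      ring
    rw [h6]
    have hcont : Continuous (fun t : ℝ => ‖g (s.re + t * I)‖ ^ 2) := by
      refine (Continuous.norm ?_).pow 2
      refine hgd.continuousOn.comp_continuous (by fun_prop) fun t => ?_
      change (s.re + t * I : ℂ).re < 1
      simp
      linarith [hs.2.1]
    have hT1 : 0 < T := lt_of_lt_of_le hT0 hT
    have h8 := (abs_le.1 hs.2.2)
    refine le_trans ?_ h5
    rw [intervalIntegral.integral_of_le (by linarith), intervalIntegral.integral_of_le (by linarith)]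
    refine setIntegral_mono_set ?_ (Filter.Eventually.of_forall fun t => by positivity) ?_
    · exact (hcont.integrableOn_Icc (a := -B') (b := T + B')).mono_set Ioc_subset_Icc_self
    · refine LE.le.eventuallyLE ?_
      exact Ioc_subset_Ioc (by linarith) (by linarith)
  set Q : ℝ → ℝ := fun t => ∫ w in rect a' b' B', ‖g (w + t * I)‖ ^ 2 with hQ
  have hQc : Continuous Q := (J_e1b.fubini_bound a' b' B' hab'.le hB1 g hgc (fun _ => 1) continuous_const T0 hT0.le (ε * T0)
    (hV T0 le_rfl)).1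
  have hQi : ∀ T : ℝ, T0 ≤ T → ∫ t in (0 : ℝ)..T, Q t ≤ (b' - a') * (2 * B') * (ε * T) := by
    intro T hT
    have h5 := (J_e1b.fubini_bound a' b' B' hab'.le hB1 g hgc (fun _ => 1) continuous_const T (hT0.le.trans hT) (ε * T)
      (hV T hT)).2
    simpa using h5
  have hQ0 : ∀ t, 0 ≤ Q t := fun t => integral_nonneg fun w => by positivity
  refine ⟨fun v => C / η ^ 2 * Q (h * v), by fun_prop, fun t => mul_nonneg (by positivity) (hQ0 _), ?_, ?_⟩
  · rintro u v ⟨s, hs, hsη⟩ huv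
    have h5 : s + (h * (u - v) : ℝ) * I ∈ rect a b (B + h) := by
      obtain ⟨s1, s2, s3⟩ := hsub hs
      refine ⟨by simpa using s1, by simpa using s2, ?_⟩
      have h6 : (s + (h * (u - v) : ℝ) * I).im = s.im + h * (u - v) := by simp
      rw [h6]
      refine (abs_add_le _ _).trans ?_
      rw [abs_mul, abs_of_pos hh]
      nlinarith
    have h6 := hCs (fun w => g (w + (h * v : ℝ) * I)) {z : ℂ | z.re < 1} (isOpen_lt Complex.continuous_re continuous_const)
      (fun w hw => lt_of_le_of_lt hw.2.1 hb1) (by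
        intro w hw
        have h7 : DifferentiableAt ℂ g (w + (h * v : ℝ) * I) :=
          (hgd _ (by change (w + (h * v : ℝ) * I).re < 1; simpa using hw)).differentiableAt
            ((isOpen_lt Complex.continuous_re continuous_const).mem_nhds (by change (w + (h * v : ℝ) * I).re < 1; simpa using hw))
        have h8 : DifferentiableAt ℂ (fun w : ℂ => w + (h * v : ℝ) * I) w := by fun_prop
        exact (h7.comp w h8).differentiableWithinAt) _ h5
    have h7 : s + (h * (u - v) : ℝ) * I + (h * v : ℝ) * I = s + (h * u : ℝ) * I := by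
      push_cast
      ring
    rw [h7] at h6
    have h8 : η ^ 2 ≤ ‖g (s + (h * u : ℝ) * I)‖ ^ 2 := pow_le_pow_left₀ hη.le hsη 2
    have h9 : η ^ 2 ≤ C * Q (h * v) := h8.trans h6
    change 1 ≤ C / η ^ 2 * Q (h * v)
    rw [div_mul_eq_mul_div, le_div_iff₀ (by positivity)]
    linarith
  · filter_upwards [eventually_ge_atTop (T0 / h)] with T hT
    have h5 : T0 ≤ h * T := by rwa [div_le_iff₀ hh, mul_comm] at hT
    have h6 := hQi (h * T) h5
    have h7 : ∫ t in (0 : ℝ)..T, C / η ^ 2 * Q (h * t) = C / η ^ 2 * (h⁻¹ * ∫ t in (0 : ℝ)..(h * T), Q t) := by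
      rw [intervalIntegral.integral_const_mul, intervalIntegral.integral_comp_mul_left _ hh.ne', mul_zero, smul_eq_mul]
    rw [h7]
    have h8 : C / η ^ 2 * (h⁻¹ * ∫ t in (0 : ℝ)..(h * T), Q t) ≤ C / η ^ 2 * (h⁻¹ * ((b' - a') * (2 * B') * (ε * (h * T)))) := by
      gcongr
    refine h8.trans (le_of_eq ?_)
    rw [hε]
    field_simp

end Pool.Agent.H4.UZ
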