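import Pool.Graph.R_pool_sql_team_seeded_3997aac3.Q97.UM.Base6
import Pool.Graph.R_seed8.TH803.UC.Fin

set_option autoImplicit false

/-! The exponential moment of the distances of the zeros of zeta from the critical line. -/

open Complex Filter Topology Set MeasureTheory
open scoped BigOperators ComplexConjugate

namespace Pool.Agent.H4.UZ

open H370

open Classical in
/-- Selberg's density theorem, from the universal density theorem -/
lemma dens1 : ∃ c C T0 : ℝ, 0 < c ∧ 0 < C ∧ 10 ≤ T0 ∧ ∀ T : ℝ, T0 ≤ T → ∀ σ : ℝ, 1 / 2 ≤ σ →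
    ∑ s ∈ (Zf riemannZeta T (2 * T)).filter (fun s => σ ≤ s.re), (mult riemannZeta s : ℝ) ≤
      C * T ^ (-(c * (σ - 1 / 2))) * Real.log T * T := by
  obtain ⟨θ, c, C, hθ, hθ1, hc, hC, h⟩ := Pool.Agent.Q97.UM.b_DENS
  obtain ⟨T1, hT1⟩ := (h.and (eventually_ge_atTop (10 : ℝ))).exists_forall_of_atTop
  refine ⟨c, C + 1, max T1 10, hc, by positivity, le_max_right _ _, fun T hT σ hσ => ?_⟩
  obtain ⟨h1, h2⟩ := hT1 T ((le_max_left _ _).trans hT)
  have h3 := h1 1 (by
    rw [Nat.cast_one]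
    exact Real.one_le_rpow (by linarith) hθ.le) (fun n => if n = 1 then 1 else 0) σ hσ
  have e1 : ∀ t : ℝ, Pool.Agent.Q97.UM.dp 1 (fun n => if n = 1 then 1 else 0) t = 1 := by
    intro t
    unfold Pool.Agent.Q97.UM.dp
    simp
  have e2 : Pool.Agent.Q97.UM.N2 1 (fun n => if n = 1 then 1 else 0) = 1 := by
    unfold Pool.Agent.Q97.UM.N2
    simp
  simp only [e1, e2, norm_one, one_pow, mul_one] at h3
  have hTp : 0 < T := by linarith
  have hL : 0 ≤ Real.log T := Real.log_nonneg (by linarith)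
  have hp := Real.rpow_nonneg hTp.le (-(c * (σ - 1 / 2)))
  refine (le_of_eq ?_).trans (h3.trans ?_)
  · rfl
  · calc C * T ^ (-(c * (σ - 1 / 2))) * Real.log T * T ≤
        (C + 1) * T ^ (-(c * (σ - 1 / 2))) * Real.log T * T := by gcongr; linarith
      _ = _ := rfl

/-- layer cake: `e^{κ x}` against a sum over the integers `j ≤ x` -/
lemma exp_layer {κ x : ℝ} (hκ : 0 ≤ κ) (hx : 0 ≤ x) {J : ℕ} (hJ : x < J) :
    Real.exp (κ * x) ≤ ∑ j ∈ Finset.range J, if (j : ℝ) ≤ x then Real.exp (κ * (j + 1)) else 0 := by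
  have h1 : ⌊x⌋₊ ∈ Finset.range J := by
    rw [Finset.mem_range]
    have := Nat.floor_le hx
    have h2 : ((⌊x⌋₊ : ℕ) : ℝ) < J := lt_of_le_of_lt this hJ
    exact_mod_cast h2
  refine le_trans ?_ (Finset.single_le_sum (f := fun j : ℕ => if (j : ℝ) ≤ x then Real.exp (κ * (j + 1)) else 0)
    (fun j _ => by split_ifs <;> positivity) h1)
  rw [if_pos (Nat.floor_le hx)]
  apply Real.exp_le_exp.2
  exact mul_le_mul_of_nonneg_left (Nat.lt_floor_add_one x).le hκ

open Classical in
/-- **the exponential moment of the distances from the critical line is bounded** -/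
theorem dens_zeta : TH803UC.Dens riemannZeta := by
  obtain ⟨c, C, T0, hc, hC, hT0, h⟩ := dens1
  obtain ⟨κ, hκ⟩ : ∃ κ, κ = c / 2 := ⟨_, rfl⟩
  have hκ0 : 0 < κ := by rw [hκ]; positivity
  obtain ⟨q, hq⟩ : ∃ q, q = Real.exp (-κ) := ⟨_, rfl⟩
  have hq0 : 0 < q := by rw [hq]; exact Real.exp_pos _
  have hq1 : q < 1 := by rw [hq, ← Real.exp_zero]; exact Real.exp_lt_exp.2 (by linarith)
  refine ⟨κ, 2 * (C * Real.exp κ * (1 - q)⁻¹), T0, hκ0, ?_, hT0, fun T hT => ?_⟩
  · have : 0 < (1 - q)⁻¹ := inv_pos.2 (by linarith)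
    positivity
  have hT10 : 10 ≤ T := hT0.trans hT
  have hTp : 0 < T := by linarith
  have hU : (1 : ℝ) ≤ T := by linarith
  have hL : 0 < Real.log T := Real.log_pos (by linarith)
  set L := Real.log T with hLd
  obtain ⟨J, hJ⟩ := exists_nat_gt (1 / 2 * L)
  -- the right half
  have hR : ∑ s ∈ (Zf riemannZeta T (2 * T)).filter (fun s => 1 / 2 ≤ s.re),
      (mult riemannZeta s : ℝ) * Real.exp (κ * (|(zz s).im| * L)) ≤ C * Real.exp κ * (1 - q)⁻¹ * (T * L) := by
    have h1 : ∀ s ∈ (Zf riemannZeta T (2 * T)).filter (fun s => 1 / 2 ≤ s.re),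
        (mult riemannZeta s : ℝ) * Real.exp (κ * (|(zz s).im| * L)) ≤
          ∑ j ∈ Finset.range J, (if 1 / 2 + j / L ≤ s.re then (mult riemannZeta s : ℝ) * Real.exp (κ * (j + 1)) else 0) := by
      intro s hs
      rw [Finset.mem_filter, mem_Zf good_zeta hU] at hs
      obtain ⟨⟨h2, h3, _⟩, h4⟩ := hs
      have h5 : |(zz s).im| = s.re - 1 / 2 := by
        rw [zz_im, abs_neg, abs_of_nonneg (by linarith)]
      rw [h5]
      have h6 := exp_layer (κ := κ) (x := (s.re - 1 / 2) * L) hκ0.le (mul_nonneg (by linarith) hL.le) (J := J) (by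
        refine lt_of_le_of_lt ?_ hJ
        exact mul_le_mul_of_nonneg_right (by linarith) hL.le)
      refine (mul_le_mul_of_nonneg_left h6 (Nat.cast_nonneg _)).trans (le_of_eq ?_)
      rw [Finset.mul_sum]
      refine Finset.sum_congr rfl fun j _ => ?_
      have h7 : ((j : ℝ) ≤ (s.re - 1 / 2) * L) ↔ (1 / 2 + j / L ≤ s.re) := by
        rw [← div_le_iff₀ hL]
        constructor <;> intro h <;> linarith
      by_cases h8 : (j : ℝ) ≤ (s.re - 1 / 2) * L
      · rw [if_pos h8, if_pos (h7.1 h8)]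
      · rw [if_neg h8, if_neg (fun h => h8 (h7.2 h)), mul_zero]
    refine (Finset.sum_le_sum h1).trans ?_
    rw [Finset.sum_comm]
    have h2 : ∀ j ∈ Finset.range J, ∑ s ∈ (Zf riemannZeta T (2 * T)).filter (fun s => 1 / 2 ≤ s.re),
        (if 1 / 2 + j / L ≤ s.re then (mult riemannZeta s : ℝ) * Real.exp (κ * (j + 1)) else 0) ≤
        C * Real.exp κ * q ^ j * (T * L) := by
      intro j _
      rw [← Finset.sum_filter, Finset.filter_filter]
      have hj0 : (0 : ℝ) ≤ j / L := by positivity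
      have h3 := h T hT (1 / 2 + j / L) (by linarith)
      have h4 : T ^ (-(c * (1 / 2 + j / L - 1 / 2))) = Real.exp (-(c * j)) := by
        rw [Real.rpow_def_of_pos hTp, ← hLd]
        congr 1
        field_simp
        ring
      rw [h4] at h3
      have e1 : (Zf riemannZeta T (2 * T)).filter (fun s => 1 / 2 ≤ s.re ∧ 1 / 2 + j / L ≤ s.re) =
          (Zf riemannZeta T (2 * T)).filter (fun s => 1 / 2 + j / L ≤ s.re) := by
        refine Finset.filter_congr fun s _ => ?_
        constructor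
        · exact fun h => h.2
        · exact fun h => ⟨by linarith, h⟩
      rw [e1, ← Finset.sum_mul]
      have h5 : Real.exp (-(c * j)) * Real.exp (κ * (j + 1)) = Real.exp κ * q ^ j := by
        rw [hq, ← Real.exp_add, ← Real.exp_nat_mul, ← Real.exp_add]
        congr 1
        rw [hκ]
        ring
      calc _ ≤ (C * Real.exp (-(c * j)) * L * T) * Real.exp (κ * (j + 1)) :=
            mul_le_mul_of_nonneg_right h3 (Real.exp_pos _).le
        _ = C * (Real.exp (-(c * j)) * Real.exp (κ * (j + 1))) * (T * L) := by ring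
        _ = _ := by rw [h5]; ring
    refine (Finset.sum_le_sum h2).trans ?_
    rw [← Finset.sum_mul, ← Finset.mul_sum]
    have h3 : ∑ j ∈ Finset.range J, q ^ j ≤ (1 - q)⁻¹ := by
      rw [← tsum_geometric_of_lt_one hq0.le hq1]
      exact (summable_geometric_of_lt_one hq0.le hq1).sum_le_tsum _ fun j _ => by positivity
    gcongr
  -- the left half by reflection
  have hLf : ∑ s ∈ (Zf riemannZeta T (2 * T)).filter (fun s => ¬ 1 / 2 ≤ s.re),
      (mult riemannZeta s : ℝ) * Real.exp (κ * (|(zz s).im| * L)) ≤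
      ∑ s ∈ (Zf riemannZeta T (2 * T)).filter (fun s => 1 / 2 ≤ s.re),
        (mult riemannZeta s : ℝ) * Real.exp (κ * (|(zz s).im| * L)) := by
    rw [Finset.sum_filter, Finset.sum_filter, ← sum_refl good_zeta hU (fun s => if 1 / 2 ≤ s.re then
      (mult riemannZeta s : ℝ) * Real.exp (κ * (|(zz s).im| * L)) else 0)]
    refine Finset.sum_le_sum fun s hs => ?_
    rw [mem_Zf good_zeta hU] at hs
    obtain ⟨h1, h2, h3, h4, h5⟩ := hs
    by_cases h6 : ¬ 1 / 2 ≤ s.re
    · rw [if_pos h6, if_pos (by simp; push Not at h6; linarith)]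
      refine le_of_eq ?_
      have e1 : mult riemannZeta (1 - conj s) = mult riemannZeta s := by
        unfold mult analyticOrderNatAt
        rw [good_zeta.symm s h1 h2 (by linarith)]
      rw [e1, zz_im, zz_im, abs_neg, abs_neg]
      have e2 : (1 - conj s).re - 1 / 2 = -(s.re - 1 / 2) := by simp; ring
      rw [e2, abs_neg]
    · rw [if_neg h6]
      split_ifs <;> positivity
  rw [← Finset.sum_filter_add_sum_filter_not (Zf riemannZeta T (2 * T)) (fun s => 1 / 2 ≤ s.re)]
  calc _ ≤ C * Real.exp κ * (1 - q)⁻¹ * (T * L) + C * Real.exp κ * (1 - q)⁻¹ * (T * L) :=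
        add_le_add hR (hLf.trans hR)
    _ = _ := by ring

end Pool.Agent.H4.UZ
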