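import Pool.Graph.R_seed8.TH803.UC.Fin

set_option autoImplicit false

/-! Lower densities and mean values. -/

open Complex Filter Topology Set MeasureTheory

namespace Pool.Agent.H4.UZ

open TH803TW

/-- the measure of the part of `E` in `[0, T]` -/
noncomputable def vl (E : Set ℝ) (T : ℝ) : ℝ := (volume (E ∩ Icc 0 T)).toReal

lemma vl_nonneg (E : Set ℝ) (T : ℝ) : 0 ≤ vl E T := ENNReal.toReal_nonneg

lemma vl_fin (E : Set ℝ) (T : ℝ) : volume (E ∩ Icc 0 T) ≠ ⊤ :=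
  ((measure_mono inter_subset_right).trans_lt (by rw [Real.volume_Icc]; exact ENNReal.ofReal_lt_top)).ne

lemma vl_mono {E F : Set ℝ} (h : E ⊆ F) (T : ℝ) : vl E T ≤ vl F T :=
  ENNReal.toReal_mono (vl_fin F T) (measure_mono (inter_subset_inter_left _ h))

lemma vl_union (E F : Set ℝ) (T : ℝ) : vl (E ∪ F) T ≤ vl E T + vl F T := by
  unfold vl
  rw [← ENNReal.toReal_add (vl_fin E T) (vl_fin F T)]
  apply ENNReal.toReal_mono (ENNReal.add_ne_top.2 ⟨vl_fin E T, vl_fin F T⟩)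
  rw [union_inter_distrib_right]
  exact measure_union_le _ _

lemma vl_le (E : Set ℝ) {T : ℝ} (hT : 0 ≤ T) : vl E T ≤ T := by
  unfold vl
  refine ENNReal.toReal_le_of_le_ofReal hT ?_
  refine (measure_mono inter_subset_right).trans ?_
  rw [Real.volume_Icc, sub_zero]

/-- the lower density -/
noncomputable def ld (E : Set ℝ) : ℝ := liminf (fun T : ℝ => vl E T / T) atTop

lemma ev_bdd (E : Set ℝ) : ∀ᶠ T : ℝ in atTop, 0 ≤ vl E T / T ∧ vl E T / T ≤ 1 := by
  filter_upwards [eventually_gt_atTop (0 : ℝ)] with T hT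
  exact ⟨div_nonneg (vl_nonneg _ _) hT.le, (div_le_one hT).2 (vl_le E hT.le)⟩

lemma bdd_ge (E : Set ℝ) : IsBoundedUnder (· ≥ ·) atTop (fun T : ℝ => vl E T / T) :=
  isBoundedUnder_of_eventually_ge ((ev_bdd E).mono fun _ h => h.1)

lemma bdd_le (E : Set ℝ) : IsBoundedUnder (· ≤ ·) atTop (fun T : ℝ => vl E T / T) :=
  isBoundedUnder_of_eventually_le ((ev_bdd E).mono fun _ h => h.2)

lemma ld_ge {E : Set ℝ} {a : ℝ} (h : ∀ᶠ T : ℝ in atTop, a * T ≤ vl E T) : a ≤ ld E := by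
  refine le_liminf_of_le (bdd_le E).isCoboundedUnder_ge ?_
  filter_upwards [h, eventually_gt_atTop (0 : ℝ)] with T h1 hT
  rwa [le_div_iff₀ hT]

lemma ld_le {E : Set ℝ} {b : ℝ} (h : ∀ᶠ T : ℝ in atTop, vl E T ≤ b * T) : ld E ≤ b := by
  refine (liminf_le_limsup (bdd_le E) (bdd_ge E)).trans ?_
  refine limsup_le_of_le (bdd_ge E).isCoboundedUnder_le ?_
  filter_upwards [h, eventually_gt_atTop (0 : ℝ)] with T h1 hT
  rwa [div_le_iff₀ hT]

lemma ld_lt {E : Set ℝ} {a : ℝ} (h : a < ld E) : ∀ᶠ T : ℝ in atTop, a * T ≤ vl E T := by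
  have h1 := eventually_lt_of_lt_liminf h (bdd_ge E)
  filter_upwards [h1, eventually_gt_atTop (0 : ℝ)] with T h2 hT
  exact ((lt_div_iff₀ hT).1 h2).le

lemma ld_mono {E F : Set ℝ} (h : E ⊆ F) : ld E ≤ ld F := by
  by_contra hc
  push Not at hc
  obtain ⟨a, h1, h2⟩ := exists_between hc
  have h3 := ld_lt h2
  have h4 : a ≤ ld F := ld_ge (h3.mono fun T hT => hT.trans (vl_mono h T))
  linarith

lemma ld_nonneg (E : Set ℝ) : 0 ≤ ld E := ld_ge (Eventually.of_forall fun T => by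
  rw [zero_mul]; exact vl_nonneg E T)

lemma ld_le_one (E : Set ℝ) : ld E ≤ 1 := ld_le (by
  filter_upwards [eventually_ge_atTop (0 : ℝ)] with T hT
  rw [one_mul]; exact vl_le E hT)

/-! ### mean values -/

lemma APm.cont {φ : ℝ → ℝ} {M : ℝ} (h : APm φ M) : Continuous φ := by
  have h1 : APu φ := fun ε hε => by
    obtain ⟨S, c, -, h2, -⟩ := h ε hε
    exact ⟨S, c, h2⟩
  exact h1.cont

/-- the mean value of an almost periodic function -/
lemma APm.mean {φ : ℝ → ℝ} {M : ℝ} (h : APm φ M) :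
    Tendsto (fun X : ℝ => (∫ t in (0 : ℝ)..X, φ t) / X) atTop (𝓝 M) := by
  rw [Metric.tendsto_atTop]
  intro ε hε
  obtain ⟨S, c, h0, h1, h2⟩ := h (ε / 4) (by positivity)
  have h3 := tp_mean c h0
  rw [Metric.tendsto_atTop] at h3
  obtain ⟨X0, hX0⟩ := h3 (ε / 4) (by positivity)
  refine ⟨max X0 1, fun X hX => ?_⟩
  have hX1 : 1 ≤ X := (le_max_right _ _).trans hX
  have hXp : 0 < X := by linarith
  have h4 := hX0 X ((le_max_left _ _).trans hX)
  rw [Real.dist_eq] at h4 ⊢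
  have h5 : |(∫ t in (0 : ℝ)..X, φ t) / X - (∫ t in (0 : ℝ)..X, tp S c t) / X| ≤ ε / 4 := by
    rw [← sub_div, abs_div, abs_of_pos hXp, div_le_iff₀ hXp,
      ← intervalIntegral.integral_sub ((APm.cont h).intervalIntegrable _ _)
        ((tp_cont S c).intervalIntegrable _ _)]
    have h6 := intervalIntegral.norm_integral_le_of_norm_le_const (a := 0) (b := X)
      (f := fun t => φ t - tp S c t) (C := ε / 4) (fun t _ => by
        rw [Real.norm_eq_abs]; exact h1 t)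
    rw [sub_zero, abs_of_pos hXp, Real.norm_eq_abs] at h6
    exact h6
  rw [abs_le] at h5 h2
  rw [abs_lt] at h4 ⊢
  constructor <;> linarith [h5.1, h5.2, h2.1, h2.2, h4.1, h4.2]

lemma APm.ev_le {φ : ℝ → ℝ} {M : ℝ} (h : APm φ M) {ε : ℝ} (hε : 0 < ε) :
    ∀ᶠ T : ℝ in atTop, |(∫ t in (0 : ℝ)..T, φ t) - M * T| ≤ ε * T := by
  have h1 := APm.mean h
  rw [Metric.tendsto_nhds] at h1
  filter_upwards [h1 ε hε, eventually_gt_atTop (0 : ℝ)] with T h2 hT
  rw [Real.dist_eq] at h2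
  have h3 : (∫ t in (0 : ℝ)..T, φ t) - M * T = ((∫ t in (0 : ℝ)..T, φ t) / T - M) * T := by
    field_simp
  rw [h3, abs_mul, abs_of_pos hT]
  exact mul_le_mul_of_nonneg_right h2.le hT.le

/-- a set on which a nonnegative continuous function is at least `1` -/
lemma vl_le_int {φ : ℝ → ℝ} (hc : Continuous φ) (h0 : ∀ t, 0 ≤ φ t) {E : Set ℝ}
    (h1 : ∀ t ∈ E, 1 ≤ φ t) {T : ℝ} (hT : 0 ≤ T) : vl E T ≤ ∫ t in (0 : ℝ)..T, φ t := by
  have hcl : IsClosed {t : ℝ | 1 ≤ φ t} := isClosed_le continuous_const hc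
  have h2 : vl E T ≤ vl {t : ℝ | 1 ≤ φ t} T := vl_mono h1 T
  refine h2.trans ?_
  have hm : MeasurableSet ({t : ℝ | 1 ≤ φ t} ∩ Icc 0 T) := hcl.measurableSet.inter measurableSet_Icc
  unfold vl
  rw [intervalIntegral.integral_of_le hT, ← integral_Icc_eq_integral_Ioc]
  have h3 : (volume ({t : ℝ | 1 ≤ φ t} ∩ Icc 0 T)).toReal = ∫ t in ({t : ℝ | 1 ≤ φ t} ∩ Icc 0 T), (1 : ℝ) := by
    rw [setIntegral_const, smul_eq_mul, mul_one]
    rfl
  rw [h3]
  have hi : IntegrableOn φ (Icc 0 T) := hc.continuousOn.integrableOn_compact isCompact_Icc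
  calc ∫ t in ({t : ℝ | 1 ≤ φ t} ∩ Icc 0 T), (1 : ℝ) ≤ ∫ t in ({t : ℝ | 1 ≤ φ t} ∩ Icc 0 T), φ t := by
        refine setIntegral_mono_on ?_ (hi.mono_set inter_subset_right) hm fun t ht => ht.1
        exact integrableOn_const (vl_fin _ _)
    _ ≤ ∫ t in Icc 0 T, φ t :=
        setIntegral_mono_set hi (Eventually.of_forall fun t => h0 t) (Eventually.of_forall inter_subset_right)

/-- a set outside which a function with values in `[0, 1]` vanishes -/
lemma int_le_vl {φ : ℝ → ℝ} (hc : Continuous φ) (h1 : ∀ t, φ t ≤ 1) {E : Set ℝ}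
    (h0 : ∀ t, t ∉ E → φ t ≤ 0) {T : ℝ} (hT : 0 ≤ T) : ∫ t in (0 : ℝ)..T, φ t ≤ vl E T := by
  have hop : IsOpen {t : ℝ | 0 < φ t} := isOpen_lt continuous_const hc
  have h2 : vl {t : ℝ | 0 < φ t} T ≤ vl E T := by
    refine vl_mono (fun t ht => ?_) T
    by_contra h
    exact absurd (h0 t h) (not_le.2 ht)
  refine le_trans ?_ h2
  have hm : MeasurableSet ({t : ℝ | 0 < φ t} ∩ Icc 0 T) := hop.measurableSet.inter measurableSet_Icc
  unfold vl
  rw [intervalIntegral.integral_of_le hT, ← integral_Icc_eq_integral_Ioc]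
  have h3 : (volume ({t : ℝ | 0 < φ t} ∩ Icc 0 T)).toReal = ∫ t in ({t : ℝ | 0 < φ t} ∩ Icc 0 T), (1 : ℝ) := by
    rw [setIntegral_const, smul_eq_mul, mul_one]
    rfl
  have h4 : ∫ t in ({t : ℝ | 0 < φ t} ∩ Icc 0 T), (1 : ℝ) =
      ∫ t in Icc 0 T, ({t : ℝ | 0 < φ t}).indicator (fun _ => (1 : ℝ)) t := by
    rw [inter_comm, setIntegral_indicator hop.measurableSet]
  rw [h3, h4]
  refine setIntegral_mono_on (hc.continuousOn.integrableOn_compact isCompact_Icc) ?_ measurableSet_Icc fun t _ => ?_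
  · rw [integrableOn_indicator_iff hop.measurableSet]
    refine integrableOn_const ?_
    exact vl_fin _ _
  · by_cases h : 0 < φ t
    · rw [indicator_of_mem (show t ∈ {t : ℝ | 0 < φ t} from h)]
      exact h1 t
    · rw [indicator_of_notMem (show t ∉ {t : ℝ | 0 < φ t} from h)]
      exact not_lt.1 h

end Pool.Agent.H4.UZ
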