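import Pool.Agent.H4.UZ.Bd
import Pool.Graph.R_pool_sql_team_seeded_64922ed1.X107.UZ.UZ2

set_option autoImplicit false

/-! Joint approximation events on the torus. -/

open Complex Filter Topology Set MeasureTheory

namespace Pool.Agent.H4.UZ

open H370 TH803TW TH803UC H295SI
open Pool.Agent.X107.UZ (kN aN PN WN Ev PN_torusPt WN_open WN_closure continuous_torusPt)

/-- data of a joint approximation event -/
structure Dat (r : ℕ) where
  /-- the dilations -/
  h : Fin r → ℝ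
  /-- the compact sets -/
  K : Fin r → Set ℂ
  /-- the target sets -/
  A : Fin r → Set (ℂ → ℂ)
  /-- the scales -/
  e : Fin r → ℝ
  hh : ∀ j, 0 < h j
  hK : ∀ j, IsCompact (K j)
  hKs : ∀ j, K j ⊆ {z | 1 / 2 < z.re ∧ z.re < 1}
  he : ∀ j, 0 < e j
  hind : ∀ (N : ℕ) (n : Fin r → Fin (kN N) → ℤ), ∑ j, ∑ l, (n j l : ℝ) * (h j * aN N l) = 0 → n = 0

variable {r : ℕ}

/-- the event -/
def Dat.S (D : Dat r) (x : ℝ) : Set ℝ :=
  {t | ∀ j, Ev (D.K j) (D.A j) (x * D.e j) (fun z => riemannZeta (z + (D.h j * t : ℝ) * I))}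

/-- the event for the Dirichlet polynomials -/
def Dat.SN (D : Dat r) (N : ℕ) (x : ℝ) : Set ℝ :=
  {t | ∀ j, Ev (D.K j) (D.A j) (x * D.e j) (fun z => ZU.DN N (z + (D.h j * t : ℝ) * I))}

lemma Dat.K0 (D : Dat r) (j : Fin r) : ∀ z ∈ D.K j, 0 ≤ z.re := fun z hz => by
  linarith [(D.hKs j hz).1]

lemma Dat.S_mono (D : Dat r) {x y : ℝ} (h : x ≤ y) : D.S x ⊆ D.S y := fun _ ht j =>
  (ht j).le (mul_le_mul_of_nonneg_right h (D.he j).le)

lemma Dat.SN_mono (D : Dat r) (N : ℕ) {x y : ℝ} (h : x ≤ y) : D.SN N x ⊆ D.SN N y := fun _ ht j =>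
  (ht j).le (mul_le_mul_of_nonneg_right h (D.he j).le)

/-- the exceptional set -/
def Dat.Bad (D : Dat r) (N : ℕ) (η : ℝ) : Set ℝ :=
  {t | ∃ j, ∃ z ∈ D.K j, η * D.e j ≤ ‖riemannZeta (z + (D.h j * t : ℝ) * I) - ZU.DN N (z + (D.h j * t : ℝ) * I)‖}

lemma Dat.S_sub (D : Dat r) (N : ℕ) (η x : ℝ) : D.S x ⊆ D.SN N (x + η) ∪ D.Bad N η := by
  intro t ht
  by_cases hb : t ∈ D.Bad N η
  · exact Or.inr hb
  · refine Or.inl fun j => ?_
    have h2 : ∀ z ∈ D.K j, ‖ZU.DN N (z + (D.h j * t : ℝ) * I) - riemannZeta (z + (D.h j * t : ℝ) * I)‖ ≤ η * D.e j := by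
      intro z hz
      by_contra hc
      refine hb ⟨j, z, hz, ?_⟩
      rw [norm_sub_rev]
      exact (not_le.1 hc).le
    have h3 := Ev.mono (ht j) h2
    rw [← add_mul] at h3
    exact h3

lemma Dat.SN_sub (D : Dat r) (N : ℕ) (η x : ℝ) : D.SN N x ⊆ D.S (x + η) ∪ D.Bad N η := by
  intro t ht
  by_cases hb : t ∈ D.Bad N η
  · exact Or.inr hb
  · refine Or.inl fun j => ?_
    have h2 : ∀ z ∈ D.K j, ‖riemannZeta (z + (D.h j * t : ℝ) * I) - ZU.DN N (z + (D.h j * t : ℝ) * I)‖ ≤ η * D.e j := by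
      intro z hz
      by_contra hc
      exact hb ⟨j, z, hz, (not_le.1 hc).le⟩
    have h3 := Ev.mono (ht j) h2
    rw [← add_mul] at h3
    exact h3

lemma Dat.bad_sm (D : Dat r) {η δ : ℝ} (hη : 0 < η) (hδ : 0 < δ) : ∃ N0 : ℕ, ∀ N ≥ N0,
    (∀ᶠ T : ℝ in atTop, vl (D.Bad N η) T ≤ δ * T) ∧
    (∀ᶠ T : ℝ in atTop, NE T (2 * T) (D.Bad N η) ≤ δ * NN riemannZeta T (2 * T)) := by
  classical
  obtain ⟨δ', hδ', hb⟩ := bad_small hδ
  have h1 : ∀ j : Fin r, ∃ N0 : ℕ, ∀ N ≥ N0, ∃ G : ℝ → ℝ, Continuous G ∧ (∀ t, 0 ≤ G t) ∧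
      (∀ u v : ℝ, (∃ s ∈ D.K j, η * D.e j ≤ ‖riemannZeta (s + (D.h j * u : ℝ) * I) - ZU.DN N (s + (D.h j * u : ℝ) * I)‖) →
        |u - v| ≤ 1 → 1 ≤ G v) ∧
      ∀ᶠ T : ℝ in atTop, ∫ t in (0 : ℝ)..T, G t ≤ δ' / (r + 1) * T := fun j =>
    exists_major (D.hK j) (D.hKs j) (D.hh j) (mul_pos hη (D.he j)) (by positivity)
  choose N0 hN0 using h1
  refine ⟨Finset.univ.sup N0, fun N hN => ?_⟩
  choose G hG1 hG2 hG3 hG4 using fun j => hN0 j N (le_trans (Finset.le_sup (Finset.mem_univ j)) hN)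
  refine hb (fun t => ∑ j, G j t) (D.Bad N η) (continuous_finsetSum _ fun j _ => hG1 j)
    (fun t => Finset.sum_nonneg fun j _ => hG2 j t) ?_ ?_
  · rintro u ⟨j, hj⟩ v huv
    refine (hG3 j u v hj huv).trans ?_
    exact Finset.single_le_sum (f := fun j => G j v) (fun j _ => hG2 j v) (Finset.mem_univ j)
  · have h2 : ∀ᶠ T : ℝ in atTop, ∀ j, ∫ t in (0 : ℝ)..T, G j t ≤ δ' / (r + 1) * T := eventually_all.2 hG4
    filter_upwards [h2, eventually_ge_atTop (0 : ℝ)] with T h3 hT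
    rw [intervalIntegral.integral_finsetSum fun j _ => (hG1 j).intervalIntegrable _ _]
    refine (Finset.sum_le_sum fun j _ => h3 j).trans ?_
    rw [Finset.sum_const, Finset.card_univ, Fintype.card_fin, nsmul_eq_mul]
    have h4 : (r : ℝ) * (δ' / (r + 1) * T) = r / (r + 1) * (δ' * T) := by ring
    rw [h4]
    have h5 : (r : ℝ) / (r + 1) ≤ 1 := by rw [div_le_one (by positivity)]; linarith
    have h6 : 0 ≤ δ' * T := by positivity
    nlinarith

/-- Urysohn functions on the small torus -/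
lemma ury {N : ℕ} {K : Set ℂ} (hK : ∀ z ∈ K, 0 ≤ z.re) (A : Set (ℂ → ℂ)) {x y : ℝ} (hxy : x < y) :
    ∃ f : C(UnitAddTorus (Fin (kN N)), ℝ), (∀ u, 0 ≤ f u ∧ f u ≤ 1) ∧ (∀ u ∈ WN N K A x, f u = 1) ∧
      (∀ u, u ∉ WN N K A y → f u = 0) := by
  have h1 : closure (WN N K A x) ⊆ WN N K A y := by
    have := WN_closure N hK A (δ := x) (η := y - x) (by linarith)
    rwa [add_sub_cancel] at this
  have hd : Disjoint (WN N K A y)ᶜ (closure (WN N K A x)) := by
    rw [Set.disjoint_left]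
    exact fun u hu hu2 => hu (h1 hu2)
  obtain ⟨f, hf0, hf1, hf⟩ := exists_continuous_zero_one_of_isClosed (X := UnitAddTorus (Fin (kN N)))
    (WN_open N hK A y).isClosed_compl isClosed_closure hd
  exact ⟨f, fun u => hf u, fun u hu => hf1 (subset_closure hu), fun u hu => hf0 hu⟩

/-- the projections of the big torus -/
def pj {k : ℕ} (j : Fin r) (u : UnitAddTorus (Fin (r * k))) : UnitAddTorus (Fin k) := fun l => u (finProdFinEquiv (j, l))

lemma pj_cont {k : ℕ} (j : Fin r) : Continuous (pj (r := r) (k := k) j) := by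
  unfold pj
  fun_prop

/-- the frequencies -/
noncomputable def Dat.α (D : Dat r) (N : ℕ) (i : Fin (r * kN N)) : ℝ :=
  D.h (finProdFinEquiv.symm i).1 * aN N (finProdFinEquiv.symm i).2

lemma Dat.α_ind (D : Dat r) (N : ℕ) (n : Fin (r * kN N) → ℤ) (h : ∑ i, (n i : ℝ) * D.α N i = 0) : n = 0 := by
  have h1 := D.hind N (fun j l => n (finProdFinEquiv (j, l))) (by
    rw [← h, ← Finset.sum_product', Finset.univ_product_univ]
    refine Fintype.sum_equiv finProdFinEquiv _ _ fun p => ?_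
    unfold Dat.α
    rw [Equiv.symm_apply_apply])
  funext i
  have h2 := congrFun (congrFun h1 (finProdFinEquiv.symm i).1) (finProdFinEquiv.symm i).2
  have h3 : n (finProdFinEquiv ((finProdFinEquiv.symm i).1, (finProdFinEquiv.symm i).2)) = 0 := h2
  rwa [Prod.mk.eta, Equiv.apply_symm_apply] at h3

lemma Dat.pj_pt (D : Dat r) (N : ℕ) (j : Fin r) (t : ℝ) :
    pj j (torusPt (D.α N) t) = torusPt (aN N) (D.h j * t) := by
  funext l
  unfold pj torusPt Dat.α
  rw [Equiv.symm_apply_apply]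
  congr 1
  ring

lemma Dat.mem_SN (D : Dat r) (N : ℕ) (x t : ℝ) :
    t ∈ D.SN N x ↔ ∀ j, torusPt (aN N) (D.h j * t) ∈ WN N (D.K j) (D.A j) (x * D.e j) := by
  refine forall_congr' fun j => ?_
  have h1 : (fun z => ZU.DN N (z + (D.h j * t : ℝ) * I)) = PN N (torusPt (aN N) (D.h j * t)) := by
    funext z
    rw [PN_torusPt]
  rw [h1]
  rfl

/-- the change of variables on the big torus -/
lemma pj_measure {k : ℕ} : (Measure.pi fun _ : Fin r => haarT k).map
    (fun (y : Fin r → UnitAddTorus (Fin k)) (i : Fin (r * k)) => y (finProdFinEquiv.symm i).1 (finProdFinEquiv.symm i).2) =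
    haarT (r * k) := by
  symm
  unfold haarT
  refine Measure.pi_eq fun s hs => ?_
  have hm : Measurable (fun (y : Fin r → UnitAddTorus (Fin k)) (i : Fin (r * k)) =>
      y (finProdFinEquiv.symm i).1 (finProdFinEquiv.symm i).2) :=
    measurable_pi_lambda _ fun i => (measurable_pi_apply _).comp (measurable_pi_apply _)
  rw [Measure.map_apply hm (MeasurableSet.univ_pi hs)]
  have e1 : (fun (y : Fin r → UnitAddTorus (Fin k)) (i : Fin (r * k)) =>
      y (finProdFinEquiv.symm i).1 (finProdFinEquiv.symm i).2) ⁻¹' univ.pi s =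
      univ.pi (fun j => univ.pi fun l => s (finProdFinEquiv (j, l))) := by
    ext y
    simp only [Set.mem_preimage, Set.mem_pi, Set.mem_univ, true_implies]
    constructor
    · intro h j l
      have := h (finProdFinEquiv (j, l))
      rwa [Equiv.symm_apply_apply] at this
    · intro h i
      have := h (finProdFinEquiv.symm i).1 (finProdFinEquiv.symm i).2
      rwa [Prod.mk.eta, Equiv.apply_symm_apply] at this
  rw [e1, Measure.pi_pi]
  simp only [Measure.pi_pi]
  rw [← Finset.prod_product', Finset.univ_product_univ]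
  exact Fintype.prod_equiv finProdFinEquiv _ _ fun p => rfl

lemma int_prod {k : ℕ} (f : Fin r → C(UnitAddTorus (Fin k), ℝ)) :
    ∫ u, (∏ j, f j (pj j u)) ∂(haarT (r * k)) = ∏ j, ∫ u, f j u ∂(haarT k) := by
  rw [← pj_measure, integral_map]
  · have e : (fun y : Fin r → UnitAddTorus (Fin k) => ∏ j, f j (pj j (fun i : Fin (r * k) =>
        y (finProdFinEquiv.symm i).1 (finProdFinEquiv.symm i).2))) = fun y => ∏ j, f j (y j) := by
      funext y
      refine Finset.prod_congr rfl fun j _ => ?_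
      congr 1
      funext l
      change y (finProdFinEquiv.symm (finProdFinEquiv (j, l))).1 (finProdFinEquiv.symm (finProdFinEquiv (j, l))).2 = y j l
      rw [Equiv.symm_apply_apply]
    rw [e]
    exact integral_fintype_prod_eq_prod (fun j (u : UnitAddTorus (Fin k)) => f j u)
  · exact (measurable_pi_lambda _ fun i => (measurable_pi_apply _).comp (measurable_pi_apply _)).aemeasurable
  · exact (continuous_finsetProd _ fun j _ => (f j).continuous.comp (pj_cont j)).aestronglyMeasurable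

theorem Dat.apx (D : Dat r) : Apx D.S := by
  classical
  refine ⟨fun x y h => D.S_mono h, fun η δ hη hδ => ?_⟩
  obtain ⟨N0, hN0⟩ := D.bad_sm hη hδ
  obtain ⟨hb1, hb2⟩ := hN0 N0 le_rfl
  refine ⟨D.SN N0, D.Bad N0 η, fun x y h => D.SN_mono N0 h, ?_, D.S_sub N0 η, D.SN_sub N0 η, hb1, hb2⟩
  intro x y hxy
  choose f hf01 hf1 hf0 using fun j : Fin r => ury (N := N0) (D.K0 j) (D.A j) (mul_lt_mul_of_pos_right hxy (D.he j))
  set F : C(UnitAddTorus (Fin (r * kN N0)), ℝ) := ⟨fun u => ∏ j, f j (pj j u),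
    continuous_finsetProd _ fun j _ => (f j).continuous.comp (pj_cont j)⟩ with hF
  have hFt : ∀ t, F (torusPt (D.α N0) t) = ∏ j, f j (torusPt (aN N0) (D.h j * t)) := by
    intro t
    change ∏ j, f j (pj j (torusPt (D.α N0) t)) = _
    exact Finset.prod_congr rfl fun j _ => by rw [D.pj_pt]
  refine ⟨fun t => ∏ j, f j (torusPt (aN N0) (D.h j * t)), fun k => ∫ u, (F ^ k) u ∂(haarT (r * kN N0)), fun k => ?_, fun t => ?_,
    fun t ht => ?_, fun t ht => ?_⟩
  · have h1 := APm_torus (D.α_ind N0) (F ^ k)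
    refine (congrArg (fun g => APm g _) ?_).mp h1
    funext t
    rw [ContinuousMap.pow_apply, hFt]
  · exact ⟨Finset.prod_nonneg fun j _ => (hf01 j _).1, Finset.prod_le_one (fun j _ => (hf01 j _).1) fun j _ => (hf01 j _).2⟩
  · rw [D.mem_SN] at ht
    exact Finset.prod_eq_one fun j _ => hf1 j _ (ht j)
  · rw [D.mem_SN] at ht
    push Not at ht
    obtain ⟨j, hj⟩ := ht
    exact Finset.prod_eq_zero (Finset.mem_univ j) (hf0 j _ hj)

/-- one component, without dilation -/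
noncomputable def Dat.one (D : Dat r) (j : Fin r) : Dat 1 where
  h := fun _ => 1
  K := fun _ => D.K j
  A := fun _ => D.A j
  e := fun _ => D.e j
  hh := fun _ => one_pos
  hK := fun _ => D.hK j
  hKs := fun _ => D.hKs j
  he := fun _ => D.he j
  hind := fun N n h => by
    simp only [one_mul, Fin.sum_univ_one] at h
    have := Pool.Agent.X107.UZ.aN_indep N (n 0) h
    funext i
    rw [Subsingleton.elim i 0]
    exact this

/-- a joint mean value between the densities -/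
theorem Dat.prod_ex (D : Dat r) {x y : ℝ} (hxy : x < y) {ε : ℝ} (hε : 0 < ε) :
    ∃ M : Fin r → ℝ, (∀ j, 0 ≤ M j ∧ M j ≤ 1) ∧ ld (D.S x) ≤ ∏ j, M j + ε ∧ ∏ j, M j ≤ ld (D.S y) + ε ∧
      ∀ j, ld ((D.one j).S x) ≤ M j + ε ∧ M j ≤ ld ((D.one j).S y) + ε := by
  classical
  obtain ⟨η, hη⟩ : ∃ η, η = (y - x) / 4 := ⟨_, rfl⟩
  have hη0 : 0 < η := by rw [hη]; linarith
  obtain ⟨N0, hN0⟩ := D.bad_sm hη0 (show 0 < ε / 2 by positivity)
  choose N1 hN1 using fun j : Fin r => (D.one j).bad_sm hη0 (show 0 < ε / 2 by positivity)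
  obtain ⟨N, hNa, hNb⟩ : ∃ N, N0 ≤ N ∧ ∀ j, N1 j ≤ N := ⟨max N0 (Finset.univ.sup N1), le_max_left _ _,
    fun j => (Finset.le_sup (Finset.mem_univ j)).trans (le_max_right _ _)⟩
  have hb := (hN0 N hNa).1
  have hb1 := fun j => (hN1 j N (hNb j)).1
  choose f hf01 hf1 hf0 using fun j : Fin r => ury (N := N) (D.K0 j) (D.A j)
    (mul_lt_mul_of_pos_right (show x + η < y - η by rw [hη]; linarith) (D.he j))
  set F : C(UnitAddTorus (Fin (r * kN N)), ℝ) := ⟨fun u => ∏ j, f j (pj j u),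
    continuous_finsetProd _ fun j _ => (f j).continuous.comp (pj_cont j)⟩ with hF
  have hFt : ∀ t, F (torusPt (D.α N) t) = ∏ j, f j (torusPt (aN N) (D.h j * t)) := by
    intro t
    change ∏ j, f j (pj j (torusPt (D.α N) t)) = _
    exact Finset.prod_congr rfl fun j _ => by rw [D.pj_pt]
  have hM : ∫ u, F u ∂(haarT (r * kN N)) = ∏ j, ∫ u, f j u ∂(haarT (kN N)) := int_prod f
  have hAP : APm (fun t => F (torusPt (D.α N) t)) (∏ j, ∫ u, f j u ∂(haarT (kN N))) := by
    rw [← hM]; exact APm_torus (D.α_ind N) F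
  have hAP1 : ∀ j, APm (fun t => f j (torusPt (aN N) t)) (∫ u, f j u ∂(haarT (kN N))) := fun j =>
    APm_torus (Pool.Agent.X107.UZ.aN_indep N) (f j)
  have hone : ∀ j z t, t ∈ (D.one j).SN N z ↔ torusPt (aN N) t ∈ WN N (D.K j) (D.A j) (z * D.e j) := by
    intro j z t
    rw [(D.one j).mem_SN, Fin.forall_fin_one]
    change torusPt (aN N) (1 * t) ∈ WN N (D.K j) (D.A j) (z * D.e j) ↔ _
    rw [one_mul]
  have e1 : y - η + η = y := by ring
  refine ⟨fun j => ∫ u, f j u ∂(haarT (kN N)), fun j => ⟨?_, ?_⟩, ?_, ?_, fun j => ⟨?_, ?_⟩⟩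
  · exact integral_nonneg fun u => (hf01 j u).1
  · have h1 : ∫ u, f j u ∂(haarT (kN N)) ≤ ∫ u, (1 : ℝ) ∂(haarT (kN N)) := by
      refine integral_mono ?_ (integrable_const _) fun u => (hf01 j u).2
      exact (f j).continuous.integrable_of_hasCompactSupport (HasCompactSupport.of_compactSpace _)
    simpa using h1
  · refine ld_le ?_
    have h1 := mean_ge hAP (E := D.S x) (F := D.SN N (x + η)) (Bad := D.Bad N η) (fun t => ?_) (fun t ht => ?_)
      (D.S_sub N η x) hb (show 0 < ε / 2 by positivity)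
    · filter_upwards [h1] with T h2
      refine h2.trans (le_of_eq ?_)
      ring
    · rw [hFt]; exact Finset.prod_nonneg fun j _ => (hf01 j _).1
    · rw [D.mem_SN] at ht
      rw [hFt]
      exact (Finset.prod_eq_one fun j _ => hf1 j _ (ht j)).ge
  · have h1 := mean_le hAP (E := D.S y) (Bad := D.Bad N η) (δ := ε / 2) (fun t => ?_) (fun t ht => ?_) hb
    · linarith
    · rw [hFt]
      exact Finset.prod_le_one (fun j _ => (hf01 j _).1) fun j _ => (hf01 j _).2
    · rw [hFt]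
      have h2 : t ∉ D.SN N (y - η) := by
        intro h
        have h3 := D.SN_sub N η (y - η) h
        rw [e1] at h3
        exact ht h3
      rw [D.mem_SN] at h2
      push Not at h2
      obtain ⟨j, hj⟩ := h2
      exact (Finset.prod_eq_zero (Finset.mem_univ j) (hf0 j _ hj)).le
  · refine ld_le ?_
    have h1 := mean_ge (hAP1 j) (E := (D.one j).S x) (F := (D.one j).SN N (x + η)) (Bad := (D.one j).Bad N η)
      (fun t => (hf01 j _).1) (fun t ht => (hf1 j _ ((hone j _ t).1 ht)).ge)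
      ((D.one j).S_sub N η x) (hb1 j) (show 0 < ε / 2 by positivity)
    filter_upwards [h1] with T h2
    refine h2.trans (le_of_eq ?_)
    ring
  · have h1 := mean_le (hAP1 j) (E := (D.one j).S y) (Bad := (D.one j).Bad N η) (δ := ε / 2) (fun t => (hf01 j _).2)
      (fun t ht => ?_) (hb1 j)
    · linarith
    · refine (hf0 j _ fun h => ht ?_).le
      have h3 := (D.one j).SN_sub N η (y - η) ((hone j _ t).2 h)
      rwa [e1] at h3

lemma prod_add_le {ι : Type*} [DecidableEq ι] (s : Finset ι) (M : ι → ℝ) (hM : ∀ j, 0 ≤ M j ∧ M j ≤ 1) {ε : ℝ}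
    (h0 : 0 ≤ ε) (h1 : ε ≤ 1) : ∏ j ∈ s, (M j + ε) ≤ ∏ j ∈ s, M j + 2 ^ s.card * ε ∧ ∏ j ∈ s, (M j + ε) ≤ 2 ^ s.card := by
  induction s using Finset.induction_on with
  | empty => simp; linarith
  | insert a s ha ih =>
    obtain ⟨i1, i2⟩ := ih
    rw [Finset.prod_insert ha, Finset.prod_insert ha, Finset.card_insert_of_notMem ha, pow_succ]
    have hp : 0 ≤ ∏ j ∈ s, (M j + ε) := Finset.prod_nonneg fun j _ => by linarith [(hM j).1]
    have hq : 0 ≤ ∏ j ∈ s, M j := Finset.prod_nonneg fun j _ => (hM j).1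
    obtain ⟨m0, m1⟩ := hM a
    have h2 : (0 : ℝ) ≤ 2 ^ s.card := by positivity
    constructor
    · have h3 : (M a + ε) * ∏ j ∈ s, (M j + ε) ≤ M a * (∏ j ∈ s, M j + 2 ^ s.card * ε) + ε * 2 ^ s.card := by
        rw [add_mul]
        exact add_le_add (mul_le_mul_of_nonneg_left i1 m0) (mul_le_mul_of_nonneg_left i2 h0)
      have h4 : M a * (2 ^ s.card * ε) ≤ 2 ^ s.card * ε := mul_le_of_le_one_left (by positivity) m1
      nlinarith
    · have h3 : (M a + ε) * ∏ j ∈ s, (M j + ε) ≤ 2 * 2 ^ s.card :=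
        mul_le_mul (by linarith) i2 hp (by norm_num)
      linarith

/-- the joint density and the product of the densities -/
theorem Dat.prod_le (D : Dat r) {x y : ℝ} (hxy : x < y) :
    ld (D.S x) ≤ ∏ j, ld ((D.one j).S y) ∧ ∏ j, ld ((D.one j).S x) ≤ ld (D.S y) := by
  classical
  have key : ∀ ε : ℝ, 0 < ε → ε ≤ 1 → ld (D.S x) ≤ ∏ j, ld ((D.one j).S y) + (2 ^ r + 2) * ε ∧
      ∏ j, ld ((D.one j).S x) ≤ ld (D.S y) + (2 ^ r + 2) * ε := by
    intro ε h0 h1
    obtain ⟨M, hM, h2, h3, h4⟩ := D.prod_ex hxy h0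
    have h2r : (0 : ℝ) < 2 ^ r := by positivity
    constructor
    · have h5 := (prod_add_le Finset.univ (fun j => ld ((D.one j).S y)) (fun j => ⟨ld_nonneg _, ld_le_one _⟩) h0.le h1).1
      rw [Finset.card_univ, Fintype.card_fin] at h5
      have h6 : ∏ j, M j ≤ ∏ j, (ld ((D.one j).S y) + ε) := Finset.prod_le_prod (fun j _ => (hM j).1) fun j _ => (h4 j).2
      linarith
    · have h5 := (prod_add_le Finset.univ M hM h0.le h1).1
      rw [Finset.card_univ, Fintype.card_fin] at h5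
      have h6 : ∏ j, ld ((D.one j).S x) ≤ ∏ j, (M j + ε) := Finset.prod_le_prod (fun j _ => ld_nonneg _) fun j _ => (h4 j).1
      linarith
  have h2r : (0 : ℝ) < 2 ^ r + 2 := by positivity
  constructor
  · refine le_of_forall_pos_le_add fun δ hδ => ?_
    refine (key (min 1 (δ / (2 ^ r + 2))) (by positivity) (min_le_left _ _)).1.trans ?_
    have h1 : (2 ^ r + 2) * min 1 (δ / (2 ^ r + 2)) ≤ (2 ^ r + 2) * (δ / (2 ^ r + 2)) :=
      mul_le_mul_of_nonneg_left (min_le_right _ _) h2r.le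
    rw [mul_div_cancel₀ _ h2r.ne'] at h1
    linarith
  · refine le_of_forall_pos_le_add fun δ hδ => ?_
    refine (key (min 1 (δ / (2 ^ r + 2))) (by positivity) (min_le_left _ _)).2.trans ?_
    have h1 : (2 ^ r + 2) * min 1 (δ / (2 ^ r + 2)) ≤ (2 ^ r + 2) * (δ / (2 ^ r + 2)) :=
      mul_le_mul_of_nonneg_left (min_le_right _ _) h2r.le
    rw [mul_div_cancel₀ _ h2r.ne'] at h1
    linarith

end Pool.Agent.H4.UZ
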