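import Pool.Agent.H4.UZ.Dn
import Pool.Agent.H4.UZ.Ld

set_option autoImplicit false

/-! Almost periodic weights at the zeros in dyadic intervals. -/

open Complex Filter Topology Set MeasureTheory

namespace Pool.Agent.H4.UZ

open H370 TH803TW TH803UC H295SI

/-- the number of the zeros in `(T, T + H]`, `H = T/2` or `T/3` -/
lemma nn_lower : ∃ c T0 : ℝ, 0 < c ∧ 10 ≤ T0 ∧ ∀ T : ℝ, T0 ≤ T → ∀ H : ℝ, T / 3 ≤ H → H ≤ T →
    c * (T * Real.log T) ≤ NN riemannZeta T (T + H) := by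
  obtain ⟨C, hC, h⟩ := H965SI.countShort riemannZeta good_zeta
  have e1 : ∀ᶠ T : ℝ in atTop, (Real.log T) ^ 2 ≤ T := by
    have h1 := (isLittleO_log_rpow_atTop (show (0 : ℝ) < 1 / 2 by norm_num)).bound (show (0 : ℝ) < 1 by norm_num)
    filter_upwards [h1, eventually_ge_atTop (1 : ℝ)] with T h2 hT
    rw [one_mul, Real.norm_of_nonneg (Real.log_nonneg hT), Real.norm_of_nonneg (by positivity)] at h2
    have h3 := pow_le_pow_left₀ (Real.log_nonneg hT) h2 2
    rwa [← Real.rpow_natCast (T ^ (1 / 2 : ℝ)) 2, ← Real.rpow_mul (by linarith), show (1 / 2 : ℝ) * (2 : ℕ) = 1 by norm_num,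
      Real.rpow_one] at h3
  have e2 : ∀ᶠ T : ℝ in atTop, 42 * (2 * C) ≤ Real.log T := Real.tendsto_log_atTop.eventually_ge_atTop _
  obtain ⟨T1, hT1⟩ := (e1.and e2).exists_forall_of_atTop
  refine ⟨1 / 42, max T1 10, by norm_num, le_max_right _ _, fun T hT H hH1 hH2 => ?_⟩
  obtain ⟨h1, h2⟩ := hT1 T ((le_max_left _ _).trans hT)
  have hT10 : 10 ≤ T := (le_max_right _ _).trans hT
  have h3 := (h T hT10 H (by linarith) hH2 T (T + H) le_rfl (by linarith) (by linarith) le_rfl).1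
  have h4 := (abs_le.1 h3).1
  have hL : 0 ≤ Real.log T := Real.log_nonneg (by linarith)
  have hpi := Real.pi_gt_three
  have hpi2 : Real.pi < 3.15 := Real.pi_lt_d2
  have h5 : T * Real.log T / 21 ≤ H * Real.log T / (2 * Real.pi) := by
    rw [div_le_div_iff₀ (by norm_num) (by positivity)]
    have : T * Real.log T ≤ 3 * H * Real.log T := by
      apply mul_le_mul_of_nonneg_right _ hL
      linarith
    have h6 : 0 ≤ T * Real.log T := by positivity
    nlinarith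
  have h6 : C * (H + Real.log T ^ 2) ≤ C * (2 * T) := by
    apply mul_le_mul_of_nonneg_left _ hC.le
    linarith
  have h7 : 42 * (2 * C) * T ≤ Real.log T * T := mul_le_mul_of_nonneg_right h2 (by linarith)
  linarith

lemma MW_ev {φ : ℝ → ℝ} {M : ℝ} (hφ : APm φ M) {ε : ℝ} (hε : 0 < ε) :
    ∀ᶠ T : ℝ in atTop, |MW riemannZeta T (2 * T) φ - M * NN riemannZeta T (2 * T)| ≤
      ε * NN riemannZeta T (2 * T) := by
  obtain ⟨c, T1, hc, hT1, hn⟩ := nn_lower
  obtain ⟨η, hη⟩ : ∃ η, η = min (ε / 2) (ε * c / 8) := ⟨_, rfl⟩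
  have hη0 : 0 < η := by rw [hη]; positivity
  have hη1 : η ≤ ε / 2 := by rw [hη]; exact min_le_left _ _
  have hη2 : η ≤ ε * c / 8 := by rw [hη]; exact min_le_right _ _
  obtain ⟨T0, hT0, h⟩ := firstW good_zeta dens_zeta (fun n => (H370.A2.lamC_norm n).le) (fun s hs _ => H370.A2.ld_zeta s hs) hφ hη0
  have ev : ∀ᶠ T : ℝ in atTop, T0 ≤ T * (9 / 10) := by
    filter_upwards [eventually_ge_atTop (T0 * 2)] with T hT
    linarith
  filter_upwards [ev, eventually_ge_atTop (100 : ℝ), eventually_ge_atTop T1] with T hTa hTb hTc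
  have hT0' : 0 < T := by linarith
  have a1 := h (9 / 10 * T) (by linarith) T (3 / 2 * T) (by linarith) (by linarith) (by linarith)
  have a2 := h (7 / 5 * T) (by linarith) (3 / 2 * T) (2 * T) (by linarith) (by linarith) (by linarith)
  have n1 := hn T hTc (1 / 2 * T) (by linarith) (by linarith)
  have n2 := hn (3 / 2 * T) (by linarith) (1 / 2 * T) (by linarith) (by linarith)
  have e1 : T + 1 / 2 * T = 3 / 2 * T := by ring
  have e2 : 3 / 2 * T + 1 / 2 * T = 2 * T := by ring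
  rw [e1] at n1
  rw [e2] at n2
  have b1 := MW_add good_zeta (A := T) (B := 3 / 2 * T) (C := 2 * T) (by linarith) (by linarith) (by linarith) φ
  have b2 := TH803TW.NN_add good_zeta (A := T) (B := 3 / 2 * T) (C := 2 * T) (by linarith) (by linarith) (by linarith)
  rw [b1, b2]
  have hL1 : 0 ≤ Real.log T := Real.log_nonneg (by linarith)
  have l1 : Real.log (9 / 10 * T) ≤ Real.log T := Real.log_le_log (by linarith) (by linarith)
  have l2 : Real.log (7 / 5 * T) ≤ Real.log (3 / 2 * T) := Real.log_le_log (by linarith) (by linarith)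
  have hL2 : 0 ≤ Real.log (3 / 2 * T) := Real.log_nonneg (by linarith)
  set x := (NN riemannZeta T (3 / 2 * T) : ℝ) with hx
  set y := (NN riemannZeta (3 / 2 * T) (2 * T) : ℝ) with hy
  have hx0 : 0 ≤ x := Nat.cast_nonneg _
  have hy0 : 0 ≤ y := Nat.cast_nonneg _
  have l3 : 9 / 10 * T * Real.log (9 / 10 * T) ≤ T * Real.log T := by
    have := Real.log_nonneg (show (1 : ℝ) ≤ 9 / 10 * T by linarith)
    exact mul_le_mul (by linarith) l1 this (by linarith)
  have l4 : 7 / 5 * T * Real.log (7 / 5 * T) ≤ 3 / 2 * T * Real.log (3 / 2 * T) := by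
    have := Real.log_nonneg (show (1 : ℝ) ≤ 7 / 5 * T by linarith)
    exact mul_le_mul (by linarith) l2 this (by linarith)
  have m1 : η * (T * Real.log T) ≤ ε / 8 * x := by
    calc η * (T * Real.log T) ≤ ε * c / 8 * (T * Real.log T) := by gcongr
      _ = ε / 8 * (c * (T * Real.log T)) := by ring
      _ ≤ _ := by gcongr
  have m2 : η * (3 / 2 * T * Real.log (3 / 2 * T)) ≤ ε / 8 * y := by
    calc η * (3 / 2 * T * Real.log (3 / 2 * T)) ≤ ε * c / 8 * (3 / 2 * T * Real.log (3 / 2 * T)) := by gcongr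
      _ = ε / 8 * (c * (3 / 2 * T * Real.log (3 / 2 * T))) := by ring
      _ ≤ _ := by gcongr
  have m3 : η * (9 / 10 * T * Real.log (9 / 10 * T)) ≤ η * (T * Real.log T) := mul_le_mul_of_nonneg_left l3 hη0.le
  have m4 : η * (7 / 5 * T * Real.log (7 / 5 * T)) ≤ η * (3 / 2 * T * Real.log (3 / 2 * T)) :=
    mul_le_mul_of_nonneg_left l4 hη0.le
  have m5 : η * x ≤ ε / 2 * x := mul_le_mul_of_nonneg_right hη1 hx0
  have m6 : η * y ≤ ε / 2 * y := mul_le_mul_of_nonneg_right hη1 hy0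
  have m7 : 0 ≤ ε * x := by positivity
  have m8 : 0 ≤ ε * y := by positivity
  obtain ⟨c1, c2⟩ := abs_le.1 a1
  obtain ⟨d1, d2⟩ := abs_le.1 a2
  rw [abs_le]
  constructor <;> linarith

/-- the constant of Montgomery and Taylor at `h` near `1` -/
lemma cc_near {ε : ℝ} (hε : 0 < ε) : ∃ h : ℝ, 0 < h ∧ h < 1 ∧ cc h ≤ cMTinv + ε := by
  have h1 : cc 1 = cMTinv := by
    unfold cc cMTinv
    rfl
  have h2 : ∀ᶠ x in 𝓝[<] (1 : ℝ), cc x < cMTinv + ε := by
    have h3 : Tendsto cc (𝓝[<] 1) (𝓝 (cc 1)) :=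
      (cc_cont one_pos le_rfl).tendsto.mono_left nhdsWithin_le_nhds
    rw [h1] at h3
    exact h3.eventually_lt_const (by linarith)
  have h4 : ∀ᶠ x in 𝓝[<] (1 : ℝ), x < 1 := eventually_mem_nhdsWithin
  have h5 : ∀ᶠ x in 𝓝[<] (1 : ℝ), 0 < x := (eventually_gt_nhds one_pos).filter_mono nhdsWithin_le_nhds
  obtain ⟨x, h6, h7, h8⟩ := (h2.and (h4.and h5)).exists
  exact ⟨x, h8, h7, h6.le⟩

lemma X1_add {A B C : ℝ} (hA : 1 ≤ A) (h1 : A ≤ B) (h2 : B ≤ C) (p : ℝ → ℝ) :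
    X1 riemannZeta A C p = X1 riemannZeta A B p + X1 riemannZeta B C p := by
  classical
  have h := Zf_sum_add good_zeta hA h1 h2 (fun s => if s.re = 1 / 2 ∧ mult riemannZeta s = 1 ∧ 0 < p s.im then (1 : ℝ) else 0)
  have e : ∀ A B : ℝ, (X1 riemannZeta A B p : ℝ) =
      ∑ s ∈ Zf riemannZeta A B, (if s.re = 1 / 2 ∧ mult riemannZeta s = 1 ∧ 0 < p s.im then (1 : ℝ) else 0) := by
    intro A B
    unfold X1
    rw [Finset.card_filter]
    push_cast
    refine Finset.sum_congr rfl fun s _ => ?_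
    congr
  rw [← e, ← e, ← e] at h
  exact_mod_cast h

lemma X2_add {A B C : ℝ} (hA : 1 ≤ A) (h1 : A ≤ B) (h2 : B ≤ C) (p : ℝ → ℝ) :
    X2 riemannZeta A C p = X2 riemannZeta A B p + X2 riemannZeta B C p := by
  classical
  have h := Zf_sum_add good_zeta hA h1 h2 (fun s => if s.re ≤ 1 / 2 ∧ 0 < p s.im then (1 : ℝ) else 0)
  have e : ∀ A B : ℝ, (X2 riemannZeta A B p : ℝ) =
      ∑ s ∈ Zf riemannZeta A B, (if s.re ≤ 1 / 2 ∧ 0 < p s.im then (1 : ℝ) else 0) := by
    intro A B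
    unfold X2
    rw [Finset.card_filter]
    push_cast
    refine Finset.sum_congr rfl fun s _ => ?_
    congr
  rw [← e, ← e, ← e] at h
  exact_mod_cast h

/-- **simple and distinct zeros against almost periodic weights, dyadic intervals** -/
lemma XX_ev {p q : ℝ → ℝ} {m : ℕ → ℝ} {Mq : ℝ} (hp : ∀ k, APm (fun t => p t ^ k) (m k)) (hq : APm q Mq)
    (hp0 : ∀ t, 0 ≤ p t) (hp1 : ∀ t, p t ≤ 1) (hq0 : ∀ t, 0 ≤ q t) (hq1 : ∀ t, 0 < p t → 1 ≤ q t) (hm4 : 0 ≤ m 4)
    {ε : ℝ} (hε : 0 < ε) :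
    ∀ᶠ T : ℝ in atTop,
      (4 * m 2 - 2 * Mq - m 4 * cMTinv - ε) * NN riemannZeta T (2 * T) ≤ X1 riemannZeta T (2 * T) p ∧
      (4 * m 2 - Mq - m 4 * cMTinv - ε) * NN riemannZeta T (2 * T) ≤ 2 * X2 riemannZeta T (2 * T) p := by
  obtain ⟨h, hh0, hh1, hcc⟩ := cc_near (show 0 < ε / (2 * (m 4 + 1)) by positivity)
  have hcc' : m 4 * cc h ≤ m 4 * cMTinv + ε / 2 := by
    have h1 := mul_le_mul_of_nonneg_left hcc hm4
    have h2 : m 4 * (ε / (2 * (m 4 + 1))) ≤ ε / 2 := by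
      rw [mul_div_assoc', div_le_div_iff₀ (by positivity) (by norm_num)]
      nlinarith
    linarith
  have hp' : APm p (m 1) := by simpa using hp 1
  obtain ⟨T0, hT0, hB⟩ := blockB good_zeta dens_zeta hp' (hp 2) (hp 4) hq hp0 hp1 hq0 hq1 hm4 h (ε / 2) hh0 hh1 (by positivity)
  filter_upwards [eventually_ge_atTop T0] with T hT
  have hT10 : 10 ≤ T := hT0.trans hT
  have a1 := hB T hT (1 / 2 * T) (by linarith) (by linarith)
  have a2 := hB (3 / 2 * T) (by linarith) (1 / 2 * T) (by linarith) (by linarith)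
  have e1 : T + 1 / 2 * T = 3 / 2 * T := by ring
  have e2 : 3 / 2 * T + 1 / 2 * T = 2 * T := by ring
  rw [e1] at a1
  rw [e2] at a2
  have b1 := X1_add (A := T) (B := 3 / 2 * T) (C := 2 * T) (by linarith) (by linarith) (by linarith) p
  have b2 := X2_add (A := T) (B := 3 / 2 * T) (C := 2 * T) (by linarith) (by linarith) (by linarith) p
  have b3 := TH803TW.NN_add good_zeta (A := T) (B := 3 / 2 * T) (C := 2 * T) (by linarith) (by linarith) (by linarith)
  rw [b1, b2, b3]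
  push_cast
  have hx0 : (0 : ℝ) ≤ NN riemannZeta T (3 / 2 * T) := Nat.cast_nonneg _
  have hy0 : (0 : ℝ) ≤ NN riemannZeta (3 / 2 * T) (2 * T) := Nat.cast_nonneg _
  set x := (NN riemannZeta T (3 / 2 * T) : ℝ) with hx
  set y := (NN riemannZeta (3 / 2 * T) (2 * T) : ℝ) with hy
  obtain ⟨c1, c2⟩ := a1
  obtain ⟨d1, d2⟩ := a2
  have g1 : (4 * m 2 - 2 * Mq - m 4 * cMTinv - ε) * (x + y) ≤ (4 * m 2 - 2 * Mq - m 4 * cc h - ε / 2) * (x + y) :=
    mul_le_mul_of_nonneg_right (by linarith) (by linarith)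
  have g2 : (4 * m 2 - Mq - m 4 * cMTinv - ε) * (x + y) ≤ (4 * m 2 - Mq - m 4 * cc h - ε / 2) * (x + y) :=
    mul_le_mul_of_nonneg_right (by linarith) (by linarith)
  constructor
  · linarith
  · linarith

end Pool.Agent.H4.UZ
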