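import Pool.Agent.H4.UZ.To
import Pool.Graph.R_seed8.H370R2.Dyadic

set_option autoImplicit false

/-! From dyadic intervals to `(0, T]`. -/

open Complex Filter Topology Set MeasureTheory

namespace Pool.Agent.H4.UZ

open H370 TH803TW TH803UC H295SI

/-- the zeros with ordinate in `E` -/
def zE (E : Set ℝ) (a b : ℝ) : Set ℂ := {s | s ∈ zset riemannZeta a b ∧ s.im ∈ E}

/-- the number of the zeros with ordinate in `E`, with multiplicity -/
noncomputable def PE (E : Set ℝ) (a b : ℝ) : ℕ := ∑ᶠ s ∈ zE E a b, mult riemannZeta s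

/-- the simple critical zeros with ordinate in `E` -/
def zS (E : Set ℝ) (a b : ℝ) : Set ℂ := {s | s ∈ zset riemannZeta a b ∧ s.re = 1 / 2 ∧ mult riemannZeta s = 1 ∧ s.im ∈ E}

/-- the distinct zeros with `Re s ≤ 1/2` and ordinate in `E` -/
def zD (E : Set ℝ) (a b : ℝ) : Set ℂ := {s | s ∈ zset riemannZeta a b ∧ s.re ≤ 1 / 2 ∧ s.im ∈ E}

lemma zset_union {a b c : ℝ} (hab : a ≤ b) (hbc : b ≤ c) :
    zset riemannZeta a c = zset riemannZeta a b ∪ zset riemannZeta b c := by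
  ext s
  simp only [zset, Set.mem_ofPred_eq, Set.mem_union]
  constructor
  · rintro ⟨a1, a2, a3, a4, a5⟩
    rcases le_or_gt s.im b with h1 | h1
    · exact Or.inl ⟨a1, a2, a3, h1, a5⟩
    · exact Or.inr ⟨a1, a2, h1, a4, a5⟩
  · rintro (⟨a1, a2, a3, a4, a5⟩ | ⟨a1, a2, a3, a4, a5⟩)
    · exact ⟨a1, a2, a3, a4.trans hbc, a5⟩
    · exact ⟨a1, a2, hab.trans_lt a3, a4, a5⟩

lemma zset_disj {a b c : ℝ} : Disjoint (zset riemannZeta a b) (zset riemannZeta b c) := by
  rw [Set.disjoint_left]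
  rintro s ⟨a1, a2, a3, a4, a5⟩ ⟨b1, b2, b3, b4, b5⟩
  linarith

lemma zfin {a b : ℝ} (ha : 0 ≤ a) : (zset riemannZeta a b).Finite :=
  (zeta_zeros_finite b).subset (zset_mono _ ha le_rfl)

lemma PE_add (E : Set ℝ) {a b c : ℝ} (h : 0 ≤ a) (hab : a ≤ b) (hbc : b ≤ c) : PE E a c = PE E a b + PE E b c := by
  unfold PE
  rw [← finsum_mem_union]
  · congr 1
    funext s
    have : (s ∈ zE E a c) = (s ∈ zE E a b ∪ zE E b c) := by
      unfold zE
      rw [zset_union hab hbc]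
      apply propext
      simp only [Set.mem_union, Set.mem_ofPred_eq]
      tauto
    rw [this]
  · exact zset_disj.mono (fun s hs => hs.1) (fun s hs => hs.1)
  · exact (zfin h).subset fun s hs => hs.1
  · exact (zfin (h.trans hab)).subset fun s hs => hs.1

lemma PE_mono (E : Set ℝ) {a X : ℝ} (h : 0 ≤ a) : PE E a X ≤ PE E 0 X := by
  rcases le_or_gt a X with h1 | h1
  · rw [PE_add E le_rfl h h1]
    exact Nat.le_add_left _ _
  · have h2 : PE E a X = 0 := by
      unfold PE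
      refine finsum_mem_eq_zero_of_forall_eq_zero fun s hs => ?_
      have h3 := hs.1
      simp only [zset, Set.mem_ofPred_eq] at h3
      linarith [h3.2.2.1, h3.2.2.2.1]
    rw [h2]
    exact Nat.zero_le _

lemma PE_compl (E : Set ℝ) {a b : ℝ} (h : 0 ≤ a) : PE E a b + PE Eᶜ a b = NN riemannZeta a b := by
  unfold PE NN
  rw [← finsum_mem_union]
  · congr 1
    funext s
    have : (s ∈ zE E a b ∪ zE Eᶜ a b) = (s ∈ zset riemannZeta a b) := by
      unfold zE
      apply propext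
      simp only [Set.mem_union, Set.mem_ofPred_eq, Set.mem_compl_iff]
      tauto
    rw [this]
  · rw [Set.disjoint_left]
    rintro s ⟨-, h1⟩ ⟨-, h2⟩
    exact h2 h1
  · exact (zfin h).subset fun s hs => hs.1
  · exact (zfin h).subset fun s hs => hs.1

lemma zS_add (E : Set ℝ) {a b c : ℝ} (h : 0 ≤ a) (hab : a ≤ b) (hbc : b ≤ c) :
    (zS E a c).ncard = (zS E a b).ncard + (zS E b c).ncard := by
  rw [← Set.ncard_union_eq (zset_disj.mono (fun s hs => hs.1) (fun s hs => hs.1)) ((zfin h).subset fun s hs => hs.1)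
    ((zfin (h.trans hab)).subset fun s hs => hs.1)]
  congr 1
  unfold zS
  rw [zset_union hab hbc]
  ext s
  simp only [Set.mem_union, Set.mem_ofPred_eq]
  tauto

lemma zD_add (E : Set ℝ) {a b c : ℝ} (h : 0 ≤ a) (hab : a ≤ b) (hbc : b ≤ c) :
    (zD E a c).ncard = (zD E a b).ncard + (zD E b c).ncard := by
  rw [← Set.ncard_union_eq (zset_disj.mono (fun s hs => hs.1) (fun s hs => hs.1)) ((zfin h).subset fun s hs => hs.1)
    ((zfin (h.trans hab)).subset fun s hs => hs.1)]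
  congr 1
  unfold zD
  rw [zset_union hab hbc]
  ext s
  simp only [Set.mem_union, Set.mem_ofPred_eq]
  tauto

lemma zS_mono (E : Set ℝ) {a X : ℝ} (h : 0 ≤ a) : (zS E a X).ncard ≤ (zS E 0 X).ncard :=
  Set.ncard_le_ncard (fun _ hs => ⟨zset_mono _ h le_rfl hs.1, hs.2⟩) ((zfin le_rfl).subset fun _ hs => hs.1)

lemma zD_mono (E : Set ℝ) {a X : ℝ} (h : 0 ≤ a) : (zD E a X).ncard ≤ (zD E 0 X).ncard :=
  Set.ncard_le_ncard (fun _ hs => ⟨zset_mono _ h le_rfl hs.1, hs.2⟩) ((zfin le_rfl).subset fun _ hs => hs.1)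

lemma PE_eq (E : Set ℝ) {a b : ℝ} (h : 1 ≤ a) : (PE E a b : ℝ) = NE a b E := by
  classical
  unfold PE NE
  have h1 : zE E a b = ((Zf riemannZeta a b).filter (fun s => s.im ∈ E) : Set ℂ) := by
    ext s
    rw [Finset.coe_filter]
    simp only [Set.mem_ofPred_eq, zE]
    rw [mem_Zf good_zeta h]
  rw [h1, finsum_mem_coe_finset]
  push_cast
  rfl

lemma zS_eq (E : Set ℝ) {a b : ℝ} (h : 1 ≤ a) : (zS E a b).ncard = SE a b E := by
  classical
  unfold SE
  have h1 : zS E a b = ((Zf riemannZeta a b).filter (fun s => s.re = 1 / 2 ∧ mult riemannZeta s = 1 ∧ s.im ∈ E) : Set ℂ) := by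
    ext s
    rw [Finset.coe_filter]
    simp only [Set.mem_ofPred_eq, zS]
    rw [mem_Zf good_zeta h]
  rw [h1, Set.ncard_coe_finset]

lemma zD_eq (E : Set ℝ) {a b : ℝ} (h : 1 ≤ a) : (zD E a b).ncard = DE a b E := by
  classical
  unfold DE
  have h1 : zD E a b = ((Zf riemannZeta a b).filter (fun s => s.re ≤ 1 / 2 ∧ s.im ∈ E) : Set ℂ) := by
    ext s
    rw [Finset.coe_filter]
    simp only [Set.mem_ofPred_eq, zD]
    rw [mem_Zf good_zeta h]
  rw [h1, Set.ncard_coe_finset]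

/-- dyadic summation -/
lemma dz (P : ℝ → ℝ → ℕ) (hadd : ∀ a b c : ℝ, 1 ≤ a → a ≤ b → b ≤ c → P a c = P a b + P b c)
    (hmono : ∀ a X : ℝ, 0 ≤ a → P a X ≤ P 0 X) {c : ℝ}
    (h : ∀ ε : ℝ, 0 < ε → ∀ᶠ T : ℝ in atTop, (c - ε) * (NN riemannZeta T (2 * T) : ℝ) ≤ P T (2 * T)) {ε : ℝ} (hε : 0 < ε) :
    ∀ᶠ T : ℝ in atTop, (c - ε) * (NN riemannZeta 0 T : ℝ) ≤ P 0 T := by
  rcases le_or_gt c ε with h1 | h1
  · refine Eventually.of_forall fun T => ?_
    have h2 : (0 : ℝ) ≤ NN riemannZeta 0 T := Nat.cast_nonneg _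
    have h3 : (0 : ℝ) ≤ P 0 T := Nat.cast_nonneg _
    nlinarith
  · obtain ⟨T0, hT0⟩ := (h (ε / 2) (by positivity)).exists_forall_of_atTop
    obtain ⟨X0, hX0⟩ := dyadic_zero good_zeta zeta_zeros_finite P hadd hmono (c - ε / 2) (c - ε) T0 (by linarith) (by linarith) hT0
    filter_upwards [eventually_ge_atTop X0] with T hT
    exact hX0 T hT

variable {S : ℝ → Set ℝ}

/-- **densities at the continuity points** -/
theorem zr_all (hS : Apx S) {x : ℝ} (hc : ContinuousAt (fun y => ld (S y)) x) :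
    Tendsto (fun T : ℝ => vl (S x) T / T) atTop (𝓝 (ld (S x))) ∧
    (∀ ε : ℝ, 0 < ε → ∀ᶠ T : ℝ in atTop, |(PE (S x) 0 T : ℝ) - ld (S x) * NN riemannZeta 0 T| ≤ ε * NN riemannZeta 0 T) ∧
    (∀ ε : ℝ, 0 < ε → ∀ᶠ T : ℝ in atTop,
      ((2 - cMTinv) * ld (S x) - ε) * NN riemannZeta 0 T ≤ ((zS (S x) 0 T).ncard : ℝ)) ∧
    (∀ ε : ℝ, 0 < ε → ∀ᶠ T : ℝ in atTop,
      ((3 - cMTinv) / 2 * ld (S x) - ε) * NN riemannZeta 0 T ≤ ((zD (S x) 0 T).ncard : ℝ)) := by
  have near : ∀ ε : ℝ, 0 < ε → ∃ y z : ℝ, y < x ∧ x < z ∧ ld (S x) - ε ≤ ld (S y) ∧ ld (S z) ≤ ld (S x) + ε := by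
    intro ε hε
    obtain ⟨δ, hδ, h1⟩ := Metric.continuousAt_iff.1 hc ε hε
    refine ⟨x - δ / 2, x + δ / 2, by linarith, by linarith, ?_, ?_⟩
    · have h2 := h1 (x := x - δ / 2) (by rw [Real.dist_eq, sub_sub_cancel_left, abs_neg, abs_of_pos (by linarith)]; linarith)
      rw [Real.dist_eq, abs_lt] at h2
      linarith [h2.1]
    · have h2 := h1 (x := x + δ / 2) (by rw [Real.dist_eq, add_sub_cancel_left, abs_of_pos (by linarith)]; linarith)
      rw [Real.dist_eq, abs_lt] at h2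
      linarith [h2.2]
  refine ⟨?_, ?_, ?_, ?_⟩
  · rw [Metric.tendsto_nhds]
    intro ε hε
    obtain ⟨y, z, hy, hz, h1, h2⟩ := near (ε / 4) (by positivity)
    have h3 := (apx_all hS hz (show 0 < ε / 4 by positivity)).1
    have h4 := ld_lt (show ld (S x) - ε / 4 < ld (S x) by linarith)
    filter_upwards [h3, h4, eventually_gt_atTop (0 : ℝ)] with T g1 g2 hT
    rw [Real.dist_eq, abs_lt]
    constructor
    · have : ld (S x) - ε / 4 ≤ vl (S x) T / T := by rw [le_div_iff₀ hT]; exact g2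
      linarith
    · have : vl (S x) T / T ≤ ld (S z) + ε / 4 := by rw [div_le_iff₀ hT]; exact g1
      linarith
  · intro ε hε
    have lo : ∀ᶠ T : ℝ in atTop, (ld (S x) - ε) * (NN riemannZeta 0 T : ℝ) ≤ PE (S x) 0 T := by
      refine dz (fun a b => PE (S x) a b) (fun a b c h1 h2 h3 => PE_add _ (by linarith) h2 h3) (fun a X h => PE_mono _ h)
        (fun δ hδ => ?_) hε
      obtain ⟨y, z, hy, hz, h1, h2⟩ := near (δ / 2) (by positivity)
      filter_upwards [(apx_all hS hy (show 0 < δ / 2 by positivity)).2.2, eventually_ge_atTop (1 : ℝ)] with T g1 hT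
      rw [PE_eq _ hT]
      refine le_trans (mul_le_mul_of_nonneg_right ?_ (Nat.cast_nonneg _)) g1
      linarith
    have up : ∀ᶠ T : ℝ in atTop, ((1 - ld (S x)) - ε) * (NN riemannZeta 0 T : ℝ) ≤ PE (S x)ᶜ 0 T := by
      refine dz (fun a b => PE (S x)ᶜ a b) (fun a b c h1 h2 h3 => PE_add _ (by linarith) h2 h3) (fun a X h => PE_mono _ h)
        (fun δ hδ => ?_) hε
      obtain ⟨y, z, hy, hz, h1, h2⟩ := near (δ / 2) (by positivity)
      filter_upwards [(apx_all hS hz (show 0 < δ / 2 by positivity)).2.1, eventually_ge_atTop (1 : ℝ)] with T g1 hT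
      rw [← PE_eq _ hT] at g1
      have h3 : (PE (S x) T (2 * T) : ℝ) + PE (S x)ᶜ T (2 * T) = NN riemannZeta T (2 * T) := by
        exact_mod_cast PE_compl (S x) (a := T) (b := 2 * T) (by linarith)
      have h4 : (0 : ℝ) ≤ NN riemannZeta T (2 * T) := Nat.cast_nonneg _
      nlinarith
    filter_upwards [lo, up] with T g1 g2
    have h3 : (PE (S x) 0 T : ℝ) + PE (S x)ᶜ 0 T = NN riemannZeta 0 T := by exact_mod_cast PE_compl (S x) le_rfl
    rw [abs_le]
    constructor <;> nlinarith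
  · intro ε hε
    refine dz (fun a b => (zS (S x) a b).ncard) (fun a b c h1 h2 h3 => zS_add _ (by linarith) h2 h3) (fun a X h => zS_mono _ h)
        (fun δ hδ => ?_) hε
    obtain ⟨y, z, hy, hz, h1, h2⟩ := near (δ / 8) (by positivity)
    filter_upwards [apx_simple hS hy (show 0 < δ / 4 by positivity), eventually_ge_atTop (1 : ℝ)] with T g1 hT
    rw [zS_eq _ hT]
    refine le_trans (mul_le_mul_of_nonneg_right ?_ (Nat.cast_nonneg _)) g1.1
    nlinarith
  · intro ε hε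
    refine dz (fun a b => (zD (S x) a b).ncard) (fun a b c h1 h2 h3 => zD_add _ (by linarith) h2 h3) (fun a X h => zD_mono _ h)
        (fun δ hδ => ?_) hε
    obtain ⟨y, z, hy, hz, h1, h2⟩ := near (δ / 8) (by positivity)
    filter_upwards [apx_simple hS hy (show 0 < δ / 4 by positivity), eventually_ge_atTop (1 : ℝ)] with T g1 hT
    rw [zD_eq _ hT]
    have h3 : ((3 - cMTinv) / 2 * ld (S x) - δ) * (NN riemannZeta T (2 * T) : ℝ) ≤
        (4 * ld (S y) - (1 + cMTinv) * ld (S x) - δ / 4) / 2 * NN riemannZeta T (2 * T) :=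
      mul_le_mul_of_nonneg_right (by nlinarith) (Nat.cast_nonneg _)
    linarith [g1.2]

end Pool.Agent.H4.UZ
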